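import Mathlib

/-!
# Averaging over placements, Cauchy's inequality, and Hall's theorem with deficiency
-/

set_option autoImplicit false

noncomputable section

open Classical

namespace Pool.Agent.MP_fb5c70_coL

theorem Avg_perm_exists {ι : Type} [Fintype ι] {a b a' b' : ι} (h : a ≠ b) (h' : a' ≠ b') :
    ∃ τ : Equiv.Perm ι, τ a = a' ∧ τ b = b' := by
  refine ⟨(Equiv.swap a a').trans (Equiv.swap (Equiv.swap a a' b) b'), ?_, ?_⟩
  · simp only [Equiv.trans_apply, Equiv.swap_apply_left]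
    refine Equiv.swap_apply_of_ne_of_ne ?_ h'
    intro h1
    apply h
    have h2 : Equiv.swap a a' a = Equiv.swap a a' b := by
      rw [Equiv.swap_apply_left]
      exact h1
    exact (Equiv.swap a a').injective h2
  · simp only [Equiv.trans_apply, Equiv.swap_apply_left]

theorem Avg_pairs {ι : Type} [Fintype ι] :
    (∑ u : ι, ∑ w : ι, (if u = w then (0 : ℤ) else 1)) =
      (Fintype.card ι : ℤ) * ((Fintype.card ι : ℤ) - 1) := by
  have h : ∀ u : ι, (∑ w : ι, (if u = w then (0 : ℤ) else 1)) = (Fintype.card ι : ℤ) - 1 := by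
    intro u
    have h1 : ∀ w : ι, (if u = w then (0 : ℤ) else 1) = 1 - (if u = w then (1 : ℤ) else 0) := by
      intro w
      by_cases h2 : u = w
      · simp [h2]
      · simp [h2]
    simp only [h1, Finset.sum_sub_distrib, Finset.sum_const, Finset.card_univ, nsmul_eq_mul,
      mul_one, Finset.sum_ite_eq, Finset.mem_univ, if_true]
  simp only [h, Finset.sum_const, Finset.card_univ, nsmul_eq_mul]

theorem Avg_const {ι : Type} [Fintype ι] (g : ι → ι → ℤ) {a b : ι} (hab : a ≠ b) :
    (Fintype.card ι : ℤ) * ((Fintype.card ι : ℤ) - 1) *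
      ∑ σ : Equiv.Perm ι, g (σ a) (σ b) =
      (Fintype.card (Equiv.Perm ι) : ℤ) * ∑ u, ∑ w, (if u = w then 0 else g u w) := by
  have h1 : ∀ u w : ι, u ≠ w → (∑ σ : Equiv.Perm ι, g (σ u) (σ w)) =
      ∑ σ : Equiv.Perm ι, g (σ a) (σ b) := by
    intro u w huw
    obtain ⟨τ, h2, h3⟩ := Avg_perm_exists hab huw
    refine Fintype.sum_equiv (Equiv.mulRight τ) _ _ ?_
    intro σ
    simp only [Equiv.coe_mulRight, Equiv.Perm.mul_apply, h2, h3]
  have h2 : ∀ σ : Equiv.Perm ι, (∑ u, ∑ w, (if u = w then 0 else g (σ u) (σ w))) =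
      ∑ u, ∑ w, (if u = w then 0 else g u w) := by
    intro σ
    refine Fintype.sum_equiv σ _ _ ?_
    intro u
    refine Fintype.sum_equiv σ _ _ ?_
    intro w
    simp only [EmbeddingLike.apply_eq_iff_eq]
  have h3 : (∑ σ : Equiv.Perm ι, ∑ u, ∑ w, (if u = w then 0 else g (σ u) (σ w))) =
      (Fintype.card (Equiv.Perm ι) : ℤ) * ∑ u, ∑ w, (if u = w then 0 else g u w) := by
    simp only [h2, Finset.sum_const, Finset.card_univ, nsmul_eq_mul]
  rw [← h3, Finset.sum_comm, ← Avg_pairs, Finset.sum_mul]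
  refine Finset.sum_congr rfl fun u _ => ?_
  rw [Finset.sum_comm, Finset.sum_mul]
  refine Finset.sum_congr rfl fun w _ => ?_
  by_cases h4 : u = w
  · simp [h4]
  · simp only [h4, if_false, one_mul]
    exact (h1 u w h4).symm

/-- The average of `g (σ u) (σ w)` over the permutations `σ` does not depend on `u ≠ w`. -/
theorem avg_perm {ι τ : Type} [Fintype ι] (g : ι → ι → ℤ) (S : Finset τ) (a b : τ → ι)
    (hab : ∀ v ∈ S, a v ≠ b v) : ∃ σ : Equiv.Perm ι,
    (S.card : ℤ) * ∑ u, ∑ w, (if u = w then 0 else g u w) ≤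
      (Fintype.card ι : ℤ) * ((Fintype.card ι : ℤ) - 1) * ∑ v ∈ S, g (σ (a v)) (σ (b v)) := by
  by_contra hcon
  push Not at hcon
  have h1 : (∑ σ : Equiv.Perm ι, (Fintype.card ι : ℤ) * ((Fintype.card ι : ℤ) - 1) *
      ∑ v ∈ S, g (σ (a v)) (σ (b v))) <
      ∑ _σ : Equiv.Perm ι, (S.card : ℤ) * ∑ u, ∑ w, (if u = w then 0 else g u w) := by
    refine Finset.sum_lt_sum_of_nonempty ⟨1, Finset.mem_univ _⟩ ?_
    intro σ _
    exact hcon σ
  rw [← Finset.mul_sum, Finset.sum_comm, Finset.mul_sum] at h1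
  have h2 : (∑ v ∈ S, (Fintype.card ι : ℤ) * ((Fintype.card ι : ℤ) - 1) *
      ∑ σ : Equiv.Perm ι, g (σ (a v)) (σ (b v))) =
      ∑ _v ∈ S, (Fintype.card (Equiv.Perm ι) : ℤ) *
        ∑ u, ∑ w, (if u = w then 0 else g u w) :=
    Finset.sum_congr rfl fun v hv => Avg_const g (hab v hv)
  rw [h2] at h1
  simp only [Finset.sum_const, Finset.card_univ, nsmul_eq_mul] at h1
  apply lt_irrefl _ (lt_of_lt_of_eq h1 _)
  ring

/-- Cauchy: the total intersection of `d` subsets of size `d` of a set `Y` of size `M`. -/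
theorem cauchy {ι Y : Type} [Fintype ι] (Yf : Finset Y) (R : ι → Finset Y)
    (hR : ∀ u, R u ⊆ Yf) (hc : ∀ u, (R u).card = Fintype.card ι) :
    (Fintype.card ι : ℤ) ^ 4 - (Fintype.card ι : ℤ) ^ 2 * Yf.card ≤
      (Yf.card : ℤ) * ∑ u, ∑ w, (if u = w then (0 : ℤ) else ((R u ∩ R w).card : ℤ)) := by
  have hcard : ∀ A : Finset Y, A ⊆ Yf → (A.card : ℤ) = ∑ y ∈ Yf, (if y ∈ A then (1 : ℤ) else 0) := by
    intro A hA
    rw [← Finset.sum_filter, Finset.filter_mem_eq_inter, Finset.inter_eq_right.2 hA]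
    simp
  have h1 : (∑ y ∈ Yf, ∑ u, (if y ∈ R u then (1 : ℤ) else 0)) = (Fintype.card ι : ℤ) ^ 2 := by
    rw [Finset.sum_comm]
    have h2 : ∀ u : ι, (∑ y ∈ Yf, (if y ∈ R u then (1 : ℤ) else 0)) = (Fintype.card ι : ℤ) := by
      intro u
      rw [← hcard _ (hR u), hc u]
    simp only [h2, Finset.sum_const, Finset.card_univ, nsmul_eq_mul]
    ring
  have h2 : (∑ y ∈ Yf, (∑ u, (if y ∈ R u then (1 : ℤ) else 0)) ^ 2) =
      (∑ u, ∑ w, (if u = w then (0 : ℤ) else ((R u ∩ R w).card : ℤ))) +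
        (Fintype.card ι : ℤ) ^ 2 := by
    have h3 : ∀ y : Y, (∑ u, (if y ∈ R u then (1 : ℤ) else 0)) ^ 2 =
        ∑ u, ∑ w, (if y ∈ R u ∩ R w then (1 : ℤ) else 0) := by
      intro y
      rw [sq, Finset.sum_mul_sum]
      refine Finset.sum_congr rfl fun u _ => Finset.sum_congr rfl fun w _ => ?_
      by_cases h4 : y ∈ R u <;> by_cases h5 : y ∈ R w <;> simp [h4, h5]
    simp only [h3]
    rw [Finset.sum_comm]
    have h4 : ∀ u : ι, (∑ y ∈ Yf, ∑ w, (if y ∈ R u ∩ R w then (1 : ℤ) else 0)) =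
        ∑ w, (if u = w then (0 : ℤ) else ((R u ∩ R w).card : ℤ)) + (Fintype.card ι : ℤ) := by
      intro u
      rw [Finset.sum_comm]
      have h5 : ∀ w : ι, (∑ y ∈ Yf, (if y ∈ R u ∩ R w then (1 : ℤ) else 0)) =
          (if u = w then (0 : ℤ) else ((R u ∩ R w).card : ℤ)) +
            (if u = w then (Fintype.card ι : ℤ) else 0) := by
        intro w
        rw [← hcard _ (Finset.inter_subset_left.trans (hR u))]
        by_cases h6 : u = w
        · subst h6
          simp [hc u]
        · simp [h6]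
      simp only [h5, Finset.sum_add_distrib, Finset.sum_ite_eq, Finset.mem_univ, if_true]
    simp only [h4, Finset.sum_add_distrib, Finset.sum_const, Finset.card_univ, nsmul_eq_mul]
    ring
  have h3 : (∑ y ∈ Yf, ∑ u, (if y ∈ R u then (1 : ℤ) else 0)) ^ 2 ≤
      (Yf.card : ℤ) * ∑ y ∈ Yf, (∑ u, (if y ∈ R u then (1 : ℤ) else 0)) ^ 2 :=
    sq_sum_le_card_mul_sum_sq
  rw [h1, h2] at h3
  nlinarith [h3]

theorem Avg_hall {τ Y : Type} (hY : Nonempty (τ → Y)) (S : Finset τ) (c : τ → Finset Y) (m : ℕ) (hm : m ≤ S.card)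
    (h : ∀ l, 1 ≤ l → l ≤ m →
      (S.filter fun v => (c v).card < l).card + m + 1 ≤ S.card + l) :
    ∃ (T : Finset τ) (g : τ → Y), T ⊆ S ∧ T.card = m ∧ Set.InjOn g (T : Finset τ) ∧
      ∀ v ∈ T, g v ∈ c v := by
  induction m generalizing S with
  | zero =>
    obtain ⟨g⟩ := hY
    exact ⟨∅, g, Finset.empty_subset _, rfl, by simp, by simp⟩
  | succ m ih =>
    have h1 := h (m + 1) (by omega) le_rfl
    have h2 : ∃ v0 ∈ S, m + 1 ≤ (c v0).card := by
      by_contra hcon
      push Not at hcon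
      have h3 : (S.filter fun v => (c v).card < m + 1) = S :=
        Finset.filter_true_of_mem hcon
      rw [h3] at h1
      omega
    obtain ⟨v0, hv0, hc0⟩ := h2
    have hS : (S.erase v0).card = S.card - 1 := Finset.card_erase_of_mem hv0
    have hpos : 0 < S.card := Finset.card_pos.2 ⟨v0, hv0⟩
    obtain ⟨T, g, hT, hTc, hg, hgc⟩ := ih (S.erase v0) (by omega) (by
      intro l hl1 hl2
      have h3 := h l hl1 (by omega)
      have h4 : ((S.erase v0).filter fun v => (c v).card < l).card ≤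
          (S.filter fun v => (c v).card < l).card :=
        Finset.card_le_card (Finset.filter_subset_filter _ (Finset.erase_subset _ _))
      omega)
    have hv0T : v0 ∉ T := fun hx => (Finset.mem_erase.1 (hT hx)).1 rfl
    have h5 : ∃ y ∈ c v0, y ∉ T.image g := by
      by_contra hcon
      push Not at hcon
      have h6 : (c v0).card ≤ (T.image g).card := Finset.card_le_card hcon
      have h7 : (T.image g).card ≤ T.card := Finset.card_image_le
      omega
    obtain ⟨y, hy1, hy2⟩ := h5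
    have hne : ∀ v ∈ T, v ≠ v0 := fun v hv hx => hv0T (hx ▸ hv)
    refine ⟨insert v0 T, Function.update g v0 y, ?_, ?_, ?_, ?_⟩
    · intro v hv
      rcases Finset.mem_insert.1 hv with rfl | hv
      · exact hv0
      · exact Finset.mem_of_mem_erase (hT hv)
    · rw [Finset.card_insert_of_notMem hv0T, hTc]
    · intro v hv w hw hvw
      rw [Finset.mem_coe, Finset.mem_insert] at hv hw
      rcases hv with rfl | hv <;> rcases hw with rfl | hw
      · rfl
      · rw [Function.update_self, Function.update_of_ne (hne w hw)] at hvw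
        exact absurd (Finset.mem_image.2 ⟨w, hw, hvw.symm⟩) hy2
      · rw [Function.update_self, Function.update_of_ne (hne v hv)] at hvw
        exact absurd (Finset.mem_image.2 ⟨v, hv, hvw⟩) hy2
      · rw [Function.update_of_ne (hne v hv), Function.update_of_ne (hne w hw)] at hvw
        exact hg hv hw hvw
    · intro v hv
      rcases Finset.mem_insert.1 hv with rfl | hv
      · rw [Function.update_self]
        exact hy1
      · rw [Function.update_of_ne (hne v hv)]
        exact hgc v hv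

/-- Hall's theorem with deficiency, for sets which are few in each size class. -/
theorem hall_def {τ Y : Type} (S : Finset τ) (c : τ → Finset Y) (m : ℕ) (hm : m ≤ S.card)
    (hm1 : 1 ≤ m)
    (h : ∀ l, 1 ≤ l → l ≤ m →
      (S.filter fun v => (c v).card < l).card + m + 1 ≤ S.card + l) :
    ∃ (T : Finset τ) (g : τ → Y), T ⊆ S ∧ T.card = m ∧ Set.InjOn g (T : Finset τ) ∧
      ∀ v ∈ T, g v ∈ c v := by
  have h1 : ∃ y : Y, True := by
    by_contra hcon
    have h2 : (S.filter fun v => (c v).card < 1) = S := by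
      refine Finset.filter_true_of_mem fun v _ => ?_
      rw [Nat.lt_one_iff, Finset.card_eq_zero]
      ext y
      exact absurd ⟨y, trivial⟩ hcon
    have h3 := h 1 le_rfl hm1
    rw [h2] at h3
    omega
  obtain ⟨y, _⟩ := h1
  exact Avg_hall ⟨fun _ => y⟩ S c m hm h

end Pool.Agent.MP_fb5c70_coL
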