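import Pool.Agent.Lib.MP_fb5c70_coL.Defs

/-!
# Counting in an irreducible graph
-/

set_option autoImplicit false

noncomputable section

open Classical

namespace Pool.Agent.MP_fb5c70_coL

variable {V : Type} [Fintype V]

/-- The vertices of degree two. -/
def Sv (G : SimpleGraph V) : Finset V := Finset.univ.filter fun x => dg G x = 2

/-- The vertices of degree at least three. -/
def Bv (G : SimpleGraph V) : Finset V := Finset.univ.filter fun x => 3 ≤ dg G x

/-- `G` has minimal degree two and no two adjacent vertices of degree two. -/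
structure Irr (G : SimpleGraph V) : Prop where
  conn : G.Connected
  two : ∀ x, 2 ≤ dg G x
  ind : ∀ x y, G.Adj x y → dg G x = 2 → dg G y ≠ 2

theorem Cnt_mem_Sv {G : SimpleGraph V} {x : V} : x ∈ Sv G ↔ dg G x = 2 := by
  rw [Sv, Finset.mem_filter, and_iff_right (Finset.mem_univ _)]

theorem Cnt_mem_Bv {G : SimpleGraph V} {x : V} : x ∈ Bv G ↔ 3 ≤ dg G x := by
  rw [Bv, Finset.mem_filter, and_iff_right (Finset.mem_univ _)]

omit [Fintype V] in
/-- The number of ordered pairs of adjacent elements is even. -/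
theorem Cnt_even (G : SimpleGraph V) (A : Finset V) : ∃ e, EB G A = 2 * e := by
  have h : ∑ p ∈ (A ×ˢ A).filter (fun p => G.Adj p.1 p.2), (1 : ZMod 2) = 0 := by
    refine Finset.sum_involution (fun p _ => (p.2, p.1)) ?_ ?_ ?_ ?_
    · intro p _
      decide
    · intro p hp _ h
      have h1 := (Finset.mem_filter.1 hp).2
      have h2 : p.2 = p.1 := congrArg Prod.fst h
      rw [h2] at h1
      exact G.loopless.irrefl _ h1
    · intro p hp
      rw [Finset.mem_filter, Finset.mem_product] at hp ⊢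
      exact ⟨⟨hp.1.2, hp.1.1⟩, hp.2.symm⟩
    · intro p _
      rfl
  rw [Finset.sum_const, nsmul_eq_mul, mul_one] at h
  exact (ZMod.natCast_eq_zero_iff _ 2).1 h

/-- The numbers `s = |S|`, `b = |B|`, `e` = number of edges inside `B`, `κ = |E| - |V|`. -/
theorem counts (G : SimpleGraph V) (hG : Irr G) :
    ∃ e κ : ℕ, EB G (Bv G) = 2 * e ∧ dsum G = 2 * Fintype.card V + 2 * κ ∧
      Fintype.card V = (Bv G).card + (Sv G).card ∧ (Sv G).card + e = (Bv G).card + κ ∧
      (Bv G).card ≤ 2 * κ ∧ 1 ≤ (Bv G).card ∧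
      (∀ A ⊆ Bv G, ∀ c, (∀ x ∈ A, c + 2 ≤ dg G x) → A.card * c ≤ 2 * κ) := by
  have hcompl : (Finset.univ : Finset V) = Bv G ∪ Sv G := by
    ext x
    rw [Finset.mem_union, Cnt_mem_Bv, Cnt_mem_Sv]
    have := hG.two x
    constructor
    · intro _
      omega
    · intro _
      exact Finset.mem_univ _
  have hdisj : Disjoint (Bv G) (Sv G) := by
    rw [Finset.disjoint_left]
    intro x hx hx'
    rw [Cnt_mem_Bv] at hx
    rw [Cnt_mem_Sv] at hx'
    omega
  have hcard : Fintype.card V = (Bv G).card + (Sv G).card := by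
    rw [← Finset.card_univ, hcompl, Finset.card_union_of_disjoint hdisj]
  have hSB : ∀ y ∈ Sv G, nb G y ⊆ Bv G := by
    intro y hy a ha
    have h1 := hG.ind y a (mem_nb.1 ha) (Cnt_mem_Sv.1 hy)
    have h2 := hG.two a
    rw [Cnt_mem_Bv]
    omega
  have hsumS : ∑ x ∈ Sv G, dg G x = 2 * (Sv G).card := by
    rw [Finset.sum_congr rfl fun x hx => Cnt_mem_Sv.1 hx, Finset.sum_const, smul_eq_mul, mul_comm]
  have hEB : EB G (Bv G) = ∑ x ∈ Bv G, ((Bv G).filter fun y => G.Adj x y).card := by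
    unfold EB
    rw [Finset.card_filter, Finset.sum_product]
    exact Finset.sum_congr rfl fun x _ => (Finset.card_filter _ _).symm
  have hcross : ∑ x ∈ Bv G, ((Sv G).filter fun y => G.Adj x y).card = 2 * (Sv G).card := by
    have h1 : ∑ x ∈ Bv G, ((Sv G).filter fun y => G.Adj x y).card =
        ∑ y ∈ Sv G, ((Bv G).filter fun x => G.Adj x y).card := by
      simp only [Finset.card_filter]
      exact Finset.sum_comm
    rw [h1, ← hsumS]
    refine Finset.sum_congr rfl fun y hy => ?_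
    unfold dg
    congr 1
    ext x
    rw [Finset.mem_filter, mem_nb]
    exact ⟨fun h => h.2.symm, fun h => ⟨hSB y hy (mem_nb.2 h), h.symm⟩⟩
  have hsumB : ∑ x ∈ Bv G, dg G x = EB G (Bv G) + 2 * (Sv G).card := by
    rw [hEB, ← hcross, ← Finset.sum_add_distrib]
    refine Finset.sum_congr rfl fun x _ => ?_
    rw [← Finset.card_union_of_disjoint
      (Finset.disjoint_of_subset_left (Finset.filter_subset _ _)
        (Finset.disjoint_of_subset_right (Finset.filter_subset _ _) hdisj)), ← Finset.filter_union,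
      ← hcompl]
    rfl
  have hds : dsum G = EB G (Bv G) + 4 * (Sv G).card := by
    unfold dsum
    rw [hcompl, Finset.sum_union hdisj, hsumB, hsumS]
    ring
  obtain ⟨e, he⟩ := Cnt_even G (Bv G)
  have hge : 2 * Fintype.card V ≤ dsum G := by
    unfold dsum
    rw [← Finset.card_univ, ← smul_eq_mul, smul_eq_mul, mul_comm, ← smul_eq_mul, ← Finset.sum_const]
    exact Finset.sum_le_sum fun x _ => hG.two x
  have hsub : ∑ x : V, (dg G x - 2) = dsum G - 2 * Fintype.card V := by
    have h1 : ∑ x : V, (dg G x - 2) + ∑ _x : V, 2 = dsum G := by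
      rw [← Finset.sum_add_distrib]
      unfold dsum
      refine Finset.sum_congr rfl fun x _ => ?_
      have := hG.two x
      omega
    rw [Finset.sum_const, Finset.card_univ, smul_eq_mul, mul_comm] at h1
    omega
  obtain ⟨κ, hκ⟩ : ∃ κ, κ = e + 2 * (Sv G).card - Fintype.card V := ⟨_, rfl⟩
  have hκ' : dsum G = 2 * Fintype.card V + 2 * κ := by omega
  have hA : ∀ A ⊆ Bv G, ∀ c, (∀ x ∈ A, c + 2 ≤ dg G x) → A.card * c ≤ 2 * κ := by
    intro A _ c hc
    have h1 : A.card * c ≤ ∑ x ∈ A, (dg G x - 2) := by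
      rw [← smul_eq_mul, ← Finset.sum_const]
      refine Finset.sum_le_sum fun x hx => ?_
      have := hc x hx
      omega
    have h2 : ∑ x ∈ A, (dg G x - 2) ≤ ∑ x : V, (dg G x - 2) :=
      Finset.sum_le_sum_of_subset (Finset.subset_univ _)
    rw [hsub] at h2
    omega
  refine ⟨e, κ, he, hκ', hcard, by omega, ?_, ?_, hA⟩
  · have h1 := hA (Bv G) (Finset.Subset.refl _) 1 fun x hx => Cnt_mem_Bv.1 hx
    omega
  · obtain ⟨x⟩ := hG.conn.nonempty
    by_cases hx : 3 ≤ dg G x
    · exact Finset.card_pos.2 ⟨x, Cnt_mem_Bv.2 hx⟩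
    · have hx2 : dg G x = 2 := by
        have := hG.two x
        omega
      have h1 : (nb G x).Nonempty := by
        rw [← Finset.card_pos]
        have : (nb G x).card = 2 := hx2
        omega
      obtain ⟨y, hy⟩ := h1
      exact Finset.card_pos.2 ⟨y, hSB x (Cnt_mem_Sv.2 hx2) hy⟩

/-- A vertex of degree two has exactly two neighbours, both of degree at least three. -/
theorem sv_nb (G : SimpleGraph V) (hG : Irr G) (v : V) (hv : v ∈ Sv G) :
    ∃ a b, a ≠ b ∧ a ∈ Bv G ∧ b ∈ Bv G ∧ ∀ y, G.Adj v y ↔ y = a ∨ y = b := by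
  have hv' : (nb G v).card = 2 := Cnt_mem_Sv.1 hv
  obtain ⟨a, b, hab, hnb⟩ := Finset.card_eq_two.1 hv'
  have hB : ∀ y, G.Adj v y → y ∈ Bv G := by
    intro y hy
    have h1 := hG.ind v y hy (Cnt_mem_Sv.1 hv)
    have h2 := hG.two y
    rw [Cnt_mem_Bv]
    omega
  have hadj : ∀ y, G.Adj v y ↔ y = a ∨ y = b := by
    intro y
    rw [← mem_nb, hnb, Finset.mem_insert, Finset.mem_singleton]
  exact ⟨a, b, hab, hB a ((hadj a).2 (Or.inl rfl)), hB b ((hadj b).2 (Or.inr rfl)), hadj⟩

end Pool.Agent.MP_fb5c70_coL
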