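import Pool.Agent.Lib.MP_fb5c70_coL.Comp
import Pool.Agent.Lib.MP_fb5c70_coL.Cnt

/-!
# Case I: small independent sets
-/

set_option autoImplicit false

noncomputable section

open Classical

namespace Pool.Agent.MP_fb5c70_coL

variable {V W : Type} [Fintype V] [Fintype W]

omit [Fintype V] in
/-- The `d` elements with the largest values. -/
theorem CaseI_top (g : V → ℕ) (B : Finset V) (d : ℕ) (hd : d ≤ B.card) :
    ∃ T ⊆ B, T.card = d ∧ ∀ x ∈ B, x ∉ T → ∀ t ∈ T, g x ≤ g t := by
  induction d with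
  | zero => exact ⟨∅, Finset.empty_subset _, rfl, fun x _ _ t ht => absurd ht (Finset.notMem_empty t)⟩
  | succ d ih =>
    obtain ⟨T, hT, hTc, hTg⟩ := ih (by omega)
    have hne : (B \ T).Nonempty := by
      rw [← Finset.card_pos, Finset.card_sdiff_of_subset hT]
      omega
    obtain ⟨x₀, hx₀, hmax⟩ := Finset.exists_max_image (B \ T) g hne
    rw [Finset.mem_sdiff] at hx₀
    refine ⟨insert x₀ T, Finset.insert_subset hx₀.1 hT, ?_, ?_⟩
    · rw [Finset.card_insert_of_notMem hx₀.2, hTc]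
    · intro x hx hxT t ht
      rw [Finset.mem_insert, not_or] at hxT
      rcases Finset.mem_insert.1 ht with rfl | ht
      · exact hmax x (Finset.mem_sdiff.2 ⟨hx, hxT.2⟩)
      · exact hTg x hx hxT.2 t ht

omit [Fintype V] [Fintype W] in
theorem CaseI_map (w₀ : W) (B : Finset V) (D : Finset W) (h : B.card ≤ D.card) :
    ∃ f : V → W, Set.InjOn f (B : Set V) ∧ ∀ x ∈ B, f x ∈ D := by
  obtain ⟨e⟩ : Nonempty (B ↪ D) := by
    apply Function.Embedding.nonempty_of_card_le
    rw [Fintype.card_coe, Fintype.card_coe]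
    exact h
  refine ⟨fun x => if hx : x ∈ B then (e ⟨x, hx⟩ : W) else w₀, ?_, ?_⟩
  · intro x hx y hy hxy
    have hx' : x ∈ B := hx
    have hy' : y ∈ B := hy
    simp only [hx', hy', dif_pos] at hxy
    exact congrArg Subtype.val (e.injective (Subtype.ext hxy))
  · intro x hx
    simp only [hx, dif_pos]
    exact (e ⟨x, hx⟩).2

/-- `2 d ≤ |W| - |V|`. If `b ≤ d`: `B` into `D`, then `S` greedily. If `b > d`: `T₀` = the `d`
vertices of `B` of largest degree into `D`; for `x ∈ B - T₀`: `(d + 1) (deg x - 2) ≤ 2 κ`, so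
`b + deg x * d ≤ b + 2 κ + 2 d ≤ |W|`: `B` greedily, then `S` greedily. -/
theorem caseI (G : SimpleGraph V) (H : SimpleGraph W) (hG : Irr G) (hH : TF H) (κ : ℕ)
    (hκ : dsum G ≤ 2 * Fintype.card V + 2 * κ) (hN : 10 * κ + 1 ≤ Fintype.card W) (D : Finset W)
    (hD : Ind H D) (hα : ∀ I, Ind H I → I.card ≤ D.card)
    (h : 2 * D.card + Fintype.card V ≤ Fintype.card W) : Emb G H := by
  obtain ⟨e, κ', -, hds, hVc, -, hb2, hb1, hAc⟩ := counts G hG
  have hκκ : κ' ≤ κ := by omega
  have hd : ∀ w, (nb H w).card ≤ D.card := fun w => hα _ (nb_ind hH w)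
  have hW : 0 < Fintype.card W := by omega
  obtain ⟨w₀⟩ := Fintype.card_pos_iff.1 hW
  -- the last step
  have last : (∃ f : V → W, Set.InjOn f (Bv G : Finset V) ∧
      ∀ u ∈ Bv G, ∀ v ∈ Bv G, G.Adj u v → ¬ H.Adj (f u) (f v)) → Emb G H := by
    rintro ⟨f, hf, hfe⟩
    obtain ⟨f', hf', hfe'⟩ := greedy G H D.card hd (Bv G) Finset.univ (Finset.subset_univ _) f hf hfe
      (by
        intro x _ hx
        have h2 : dg G x = 2 := by
          have h3 := hG.two x
          rw [Cnt_mem_Bv] at hx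
          omega
        rw [h2, Finset.card_univ]
        omega)
    refine ⟨f', ?_, fun u v => hfe' u (Finset.mem_univ u) v (Finset.mem_univ v)⟩
    rw [Finset.coe_univ, Set.injOn_univ] at hf'
    exact hf'
  by_cases hbd : (Bv G).card ≤ D.card
  · obtain ⟨f, hf, hfD⟩ := CaseI_map w₀ (Bv G) D hbd
    exact last ⟨f, hf, fun u hu v hv _ => hD _ (hfD u hu) _ (hfD v hv)⟩
  · rw [not_le] at hbd
    obtain ⟨T, hTB, hTc, hTg⟩ := CaseI_top (dg G) (Bv G) D.card hbd.le
    obtain ⟨f, hf, hfD⟩ := CaseI_map w₀ T D hTc.le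
    refine last (greedy G H D.card hd T (Bv G) hTB f hf
      (fun u hu v hv _ => hD _ (hfD u hu) _ (hfD v hv)) ?_)
    intro x hx hxT
    obtain ⟨c, hc⟩ : ∃ c, dg G x = c + 2 := ⟨dg G x - 2, by have := hG.two x; omega⟩
    have h1 := hAc (insert x T) (Finset.insert_subset hx hTB) c (by
      intro y hy
      rcases Finset.mem_insert.1 hy with rfl | hy
      · exact hc.ge
      · rw [← hc]
        exact hTg x hx hxT y hy)
    rw [Finset.card_insert_of_notMem hxT, hTc] at h1
    rw [hc]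
    have h2 : (c + 2) * D.card = D.card * c + 2 * D.card := by ring
    have h3 : (D.card + 1) * c = D.card * c + c := by ring
    rw [h3] at h1
    rw [h2]
    omega

end Pool.Agent.MP_fb5c70_coL
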