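import Pool.Agent.Lib.MP_fb5c70_coL.Defs

/-!
# Completion, greedy extension, and the sparse bad graph
-/

set_option autoImplicit false

noncomputable section

open Classical

namespace Pool.Agent.MP_fb5c70_coL

variable {V W : Type} [Fintype V] [Fintype W]

/-- Completion: `T` outside of `D`, its neighbours `A` in `D`; everything else goes into `D`. -/
theorem complete (G : SimpleGraph V) (H : SimpleGraph W) (D : Finset W) (hD : Ind H D)
    (T A : Finset V) (f : V → W) (hTi : ∀ t ∈ T, ∀ t' ∈ T, ¬ G.Adj t t') (hTA : Disjoint T A)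
    (hA : ∀ t ∈ T, ∀ a, G.Adj t a → a ∈ A) (hf : Set.InjOn f (T ∪ A : Finset V))
    (hfT : ∀ t ∈ T, f t ∉ D) (hfA : ∀ a ∈ A, f a ∈ D)
    (hb : ∀ t ∈ T, ∀ a, G.Adj t a → ¬ H.Adj (f t) (f a))
    (hc : Fintype.card V ≤ T.card + D.card) : Emb G H := by
  have hfA' : A.image f ⊆ D := fun w hw => by
    obtain ⟨a, ha, rfl⟩ := Finset.mem_image.1 hw
    exact hfA a ha
  have hinjA : Set.InjOn f (A : Finset V) := hf.mono fun a ha =>
    Finset.mem_coe.2 (Finset.mem_union_right _ (Finset.mem_coe.1 ha))
  -- the remaining vertices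
  have hR : (Finset.univ \ (T ∪ A)).card ≤ (D \ A.image f).card := by
    rw [Finset.card_sdiff_of_subset hfA', Finset.card_image_of_injOn hinjA,
      Finset.card_sdiff_of_subset (Finset.subset_univ _), Finset.card_univ,
      Finset.card_union_of_disjoint hTA]
    omega
  obtain ⟨e⟩ : Nonempty ((Finset.univ \ (T ∪ A) : Finset V) ↪ (D \ A.image f : Finset W)) := by
    apply Function.Embedding.nonempty_of_card_le
    rw [Fintype.card_coe, Fintype.card_coe]
    exact hR
  have hmem : ∀ x, x ∉ T ∪ A → x ∈ Finset.univ \ (T ∪ A) := fun x hx =>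
    Finset.mem_sdiff.2 ⟨Finset.mem_univ _, hx⟩
  set F : V → W := fun x => if h : x ∉ T ∪ A then (e ⟨x, hmem x h⟩ : W) else f x with hF
  have F1 : ∀ x (h : x ∉ T ∪ A), F x = (e ⟨x, hmem x h⟩ : W) := fun x h => by
    rw [hF]
    exact dif_pos h
  have F2 : ∀ x, x ∈ T ∪ A → F x = f x := fun x h => by
    rw [hF]
    exact dif_neg (fun h' => h' h)
  have FD : ∀ x, x ∉ T → F x ∈ D := by
    intro x hx
    by_cases hxA : x ∈ A
    · rw [F2 x (Finset.mem_union_right _ hxA)]
      exact hfA x hxA
    · have : x ∉ T ∪ A := fun h => by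
        rcases Finset.mem_union.1 h with h | h
        · exact hx h
        · exact hxA h
      rw [F1 x this]
      exact (Finset.mem_sdiff.1 (e ⟨x, hmem x this⟩).2).1
  have FT : ∀ x, x ∈ T → F x ∉ D := by
    intro x hx
    rw [F2 x (Finset.mem_union_left _ hx)]
    exact hfT x hx
  refine ⟨F, ?_, ?_⟩
  · intro x y hxy
    by_cases hx : x ∈ T ∪ A
    · by_cases hy : y ∈ T ∪ A
      · rw [F2 x hx, F2 y hy] at hxy
        exact hf (Finset.mem_coe.2 hx) (Finset.mem_coe.2 hy) hxy
      · exfalso
        have hyD := FD y (fun h => hy (Finset.mem_union_left _ h))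
        rcases Finset.mem_union.1 hx with h | h
        · exact FT x h (by rw [hxy]; exact hyD)
        · rw [F2 x hx, F1 y hy] at hxy
          exact (Finset.mem_sdiff.1 (e ⟨y, hmem y hy⟩).2).2
            (by rw [← hxy]; exact Finset.mem_image_of_mem _ h)
    · by_cases hy : y ∈ T ∪ A
      · exfalso
        have hxD := FD x (fun h => hx (Finset.mem_union_left _ h))
        rcases Finset.mem_union.1 hy with h | h
        · exact FT y h (by rw [← hxy]; exact hxD)
        · rw [F1 x hx, F2 y hy] at hxy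
          exact (Finset.mem_sdiff.1 (e ⟨x, hmem x hx⟩).2).2
            (by rw [hxy]; exact Finset.mem_image_of_mem _ h)
      · rw [F1 x hx, F1 y hy] at hxy
        exact congrArg Subtype.val (e.injective (Subtype.ext hxy))
  · intro x y hxy
    by_cases hx : x ∈ T
    · have hyA := hA x hx y hxy
      rw [F2 x (Finset.mem_union_left _ hx), F2 y (Finset.mem_union_right _ hyA)]
      exact hb x hx y hxy
    · by_cases hy : y ∈ T
      · have hxA := hA y hy x hxy.symm
        rw [F2 y (Finset.mem_union_left _ hy), F2 x (Finset.mem_union_right _ hxA)]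
        exact fun h => hb y hy x hxy.symm h.symm
      · exact hD _ (FD x hx) _ (FD y hy)

/-- Greedy extension from `P` to `Q`. -/
theorem greedy (G : SimpleGraph V) (H : SimpleGraph W) (d : ℕ) (hd : ∀ w, (nb H w).card ≤ d)
    (P Q : Finset V) (hPQ : P ⊆ Q) (f : V → W) (hf : Set.InjOn f (P : Finset V))
    (hfe : ∀ u ∈ P, ∀ v ∈ P, G.Adj u v → ¬ H.Adj (f u) (f v))
    (hq : ∀ x ∈ Q, x ∉ P → Q.card + dg G x * d ≤ Fintype.card W) :
    ∃ f' : V → W, Set.InjOn f' (Q : Finset V) ∧
      ∀ u ∈ Q, ∀ v ∈ Q, G.Adj u v → ¬ H.Adj (f' u) (f' v) := by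
  obtain ⟨k, hk⟩ : ∃ k, (Q \ P).card = k := ⟨_, rfl⟩
  induction k generalizing P f with
  | zero =>
    have : Q = P := by
      refine Finset.Subset.antisymm ?_ hPQ
      rw [← Finset.sdiff_eq_empty_iff_subset]
      exact Finset.card_eq_zero.1 hk
    subst this
    exact ⟨f, hf, hfe⟩
  | succ k ih =>
    obtain ⟨x, hx⟩ : (Q \ P).Nonempty := Finset.card_pos.1 (by omega)
    obtain ⟨hxQ, hxP⟩ := Finset.mem_sdiff.1 hx
    -- the forbidden places
    have hcard : (P.image f ∪ (nb G x).biUnion fun y => nb H (f y)).card < Fintype.card W := by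
      have h1 := hq x hxQ hxP
      have h2 : (P.image f).card ≤ P.card := Finset.card_image_le
      have h3 : ((nb G x).biUnion fun y => nb H (f y)).card ≤ dg G x * d := by
        refine Finset.card_biUnion_le.trans ?_
        rw [dg, ← smul_eq_mul]
        exact Finset.sum_le_card_nsmul _ _ _ fun y _ => hd _
      have h4 : P.card < Q.card := by
        have := Finset.card_sdiff_add_card_eq_card hPQ
        omega
      have h5 := Finset.card_union_le (P.image f) ((nb G x).biUnion fun y => nb H (f y))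
      omega
    obtain ⟨w, hw⟩ : ∃ w, w ∉ P.image f ∪ (nb G x).biUnion fun y => nb H (f y) := by
      by_contra hcon
      push Not at hcon
      have : P.image f ∪ (nb G x).biUnion (fun y => nb H (f y)) = Finset.univ :=
        Finset.eq_univ_iff_forall.2 hcon
      rw [this, Finset.card_univ] at hcard
      exact lt_irrefl _ hcard
    rw [Finset.mem_union, not_or] at hw
    obtain ⟨hw1, hw2⟩ := hw
    have hne : ∀ y ∈ P, y ≠ x := fun y hy h => hxP (h ▸ hy)
    have hw2' : ∀ y, G.Adj x y → ¬ H.Adj (f y) w := fun y hy h => hw2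
      (Finset.mem_biUnion.2 ⟨y, mem_nb.2 hy, mem_nb.2 h⟩)
    refine ih (insert x P) ?_ (Function.update f x w) ?_ ?_ ?_ ?_
    · exact Finset.insert_subset hxQ hPQ
    · intro a ha b hb hab
      rw [Finset.mem_coe, Finset.mem_insert] at ha hb
      rcases ha with rfl | ha <;> rcases hb with rfl | hb
      · rfl
      · rw [Function.update_self, Function.update_of_ne (hne b hb)] at hab
        exact absurd (Finset.mem_image.2 ⟨b, hb, hab.symm⟩) hw1
      · rw [Function.update_self, Function.update_of_ne (hne a ha)] at hab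
        exact absurd (Finset.mem_image.2 ⟨a, ha, hab⟩) hw1
      · rw [Function.update_of_ne (hne a ha), Function.update_of_ne (hne b hb)] at hab
        exact hf (Finset.mem_coe.2 ha) (Finset.mem_coe.2 hb) hab
    · intro a ha b hb hab
      rw [Finset.mem_insert] at ha hb
      rcases ha with rfl | ha <;> rcases hb with rfl | hb
      · exact absurd hab (G.loopless.irrefl _)
      · rw [Function.update_self, Function.update_of_ne (hne b hb)]
        exact fun h => hw2' b hab h.symm
      · rw [Function.update_self, Function.update_of_ne (hne a ha)]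
        exact hw2' a hab.symm
      · rw [Function.update_of_ne (hne a ha), Function.update_of_ne (hne b hb)]
        exact hfe a ha b hb hab
    · intro y hy hyP
      exact hq y hy fun h => hyP (Finset.mem_insert_of_mem h)
    · have h1 : Q \ insert x P = (Q \ P).erase x := by
        ext y
        rw [Finset.mem_sdiff, Finset.mem_insert, Finset.mem_erase, Finset.mem_sdiff]
        tauto
      rw [h1, Finset.card_erase_of_mem hx, hk]
      rfl

/-- If the red neighbourhoods of `u` and of each `w ∈ Gam` cover `Z`, then `Gam` is small: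
`Z₁ = Z ∩ N(u)`, `Z₂ = Z - Z₁ ⊆ N(w)`, `X₁` = elements of `Z₁` with a red neighbour in `Z₂`,
`X₀ = Z₁ - X₁`; `X₁ ∪ Gam` and `X₀ ∪ Z₂` are independent. -/
theorem gam_card (H : SimpleGraph W) (hH : TF H) (d : ℕ) (hα : ∀ I, Ind H I → I.card ≤ d)
    (D Z : Finset W) (hD : Ind H D) (hDZ : Disjoint D Z) (u : W) (Gam : Finset W) (hG : Gam ⊆ D)
    (hne : Gam.Nonempty) (h : ∀ w ∈ Gam, ∀ z ∈ Z, H.Adj u z ∨ H.Adj w z) :
    Gam.card + Z.card ≤ 2 * d := by
  set Z1 := Z.filter fun z => H.Adj u z with hZ1
  set Z2 := Z.filter fun z => ¬ H.Adj u z with hZ2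
  set X1 := Z1.filter fun z => ∃ z' ∈ Z2, H.Adj z z' with hX1
  set X0 := Z1.filter fun z => ¬ ∃ z' ∈ Z2, H.Adj z z' with hX0
  have c1 : Z1.card + Z2.card = Z.card := Finset.card_filter_add_card_filter_not _
  have c2 : X1.card + X0.card = Z1.card := Finset.card_filter_add_card_filter_not _
  have m1 : ∀ z ∈ Z1, z ∈ Z ∧ H.Adj u z := fun z hz => Finset.mem_filter.1 hz
  have m2 : ∀ z ∈ Z2, z ∈ Z ∧ ¬ H.Adj u z := fun z hz => Finset.mem_filter.1 hz
  have mG : ∀ w ∈ Gam, ∀ z ∈ Z2, H.Adj w z := fun w hw z hz =>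
    (h w hw z (m2 z hz).1).resolve_left (m2 z hz).2
  obtain ⟨w0, hw0⟩ := hne
  have i1 : Ind H (X1 ∪ Gam) := by
    have key : ∀ z ∈ X1, ∀ w ∈ Gam, ¬ H.Adj z w := by
      intro z hz w hw hzw
      obtain ⟨_, z', hz', hzz'⟩ := Finset.mem_filter.1 hz
      exact hH w z z' hzw.symm hzz' (mG w hw z' hz')
    intro a ha b hb hab
    rcases Finset.mem_union.1 ha with ha | ha <;> rcases Finset.mem_union.1 hb with hb | hb
    · have ha' := (m1 a (Finset.mem_filter.1 ha).1).2
      have hb' := (m1 b (Finset.mem_filter.1 hb).1).2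
      exact hH a b u hab hb'.symm ha'.symm
    · exact key a ha b hb hab
    · exact key b hb a ha hab.symm
    · exact hD a (hG ha) b (hG hb) hab
  have i2 : Ind H (X0 ∪ Z2) := by
    have key : ∀ z ∈ X0, ∀ z' ∈ Z2, ¬ H.Adj z z' := by
      intro z hz z' hz' hzz'
      exact (Finset.mem_filter.1 hz).2 ⟨z', hz', hzz'⟩
    intro a ha b hb hab
    rcases Finset.mem_union.1 ha with ha | ha <;> rcases Finset.mem_union.1 hb with hb | hb
    · have ha' := (m1 a (Finset.mem_filter.1 ha).1).2
      have hb' := (m1 b (Finset.mem_filter.1 hb).1).2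
      exact hH a b u hab hb'.symm ha'.symm
    · exact key a ha b hb hab
    · exact key b hb a ha hab.symm
    · exact hH a b w0 hab (mG w0 hw0 b hb).symm (mG w0 hw0 a ha).symm
  have d1 : (X1 ∪ Gam).card = X1.card + Gam.card := by
    apply Finset.card_union_of_disjoint
    rw [Finset.disjoint_left]
    intro z hz hz'
    exact Finset.disjoint_left.1 hDZ (hG hz') (m1 z (Finset.mem_filter.1 hz).1).1
  have d2 : (X0 ∪ Z2).card = X0.card + Z2.card := by
    apply Finset.card_union_of_disjoint
    rw [Finset.disjoint_left]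
    intro z hz hz'
    exact (m2 z hz').2 (m1 z (Finset.mem_filter.1 hz).1).2
  have e1 := hα _ i1
  have e2 := hα _ i2
  omega

end Pool.Agent.MP_fb5c70_coL
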