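import Mathlib

/-!
# Triangle-goodness: definitions

`H` is the red graph (triangle-free), `G` has to be embedded into its complement.
-/

set_option autoImplicit false

noncomputable section

open Classical

namespace Pool.Agent.MP_fb5c70_coL

/-- `G` embeds into the complement of `H`. -/
def Emb {V W : Type} (G : SimpleGraph V) (H : SimpleGraph W) : Prop :=
  ∃ f : V → W, Function.Injective f ∧ ∀ u v, G.Adj u v → ¬ H.Adj (f u) (f v)

/-- Triangle-free. -/
def TF {W : Type} (H : SimpleGraph W) : Prop :=
  ∀ a b c, H.Adj a b → H.Adj b c → ¬ H.Adj a c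

/-- Independent sets. -/
def Ind {W : Type} (H : SimpleGraph W) (I : Finset W) : Prop :=
  ∀ a ∈ I, ∀ b ∈ I, ¬ H.Adj a b

/-- The neighbourhood. -/
def nb {V : Type} [Fintype V] (G : SimpleGraph V) (x : V) : Finset V :=
  Finset.univ.filter fun y => G.Adj x y

/-- The degree. -/
def dg {V : Type} [Fintype V] (G : SimpleGraph V) (x : V) : ℕ := (nb G x).card

/-- The sum of the degrees, twice the number of edges. -/
def dsum {V : Type} [Fintype V] (G : SimpleGraph V) : ℕ := ∑ x, dg G x

/-- The number of ordered pairs of adjacent elements of `A`. -/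
def EB {V : Type} (G : SimpleGraph V) (A : Finset V) : ℕ :=
  ((A ×ˢ A).filter fun p => G.Adj p.1 p.2).card

theorem mem_nb {V : Type} [Fintype V] {G : SimpleGraph V} {x y : V} :
    y ∈ nb G x ↔ G.Adj x y := by
  rw [nb, Finset.mem_filter, and_iff_right (Finset.mem_univ _)]

theorem nb_ind {W : Type} [Fintype W] {H : SimpleGraph W} (hH : TF H) (w : W) :
    Ind H (nb H w) := by
  intro a ha b hb h
  exact hH a b w h (mem_nb.1 hb).symm (mem_nb.1 ha).symm

theorem Ind.mono {W : Type} {H : SimpleGraph W} {I J : Finset W} (hJ : Ind H J) (h : I ⊆ J) :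
    Ind H I := fun a ha b hb => hJ a (h ha) b (h hb)

/-- An independent set of size `|V|` is enough. -/
theorem emb_of_ind {V W : Type} [Fintype V] (G : SimpleGraph V) (H : SimpleGraph W)
    {I : Finset W} (hI : Ind H I) (hc : Fintype.card V ≤ I.card) : Emb G H := by
  rw [← Finset.card_univ] at hc
  obtain ⟨f, hf, hinj⟩ : ∃ f : V → W, (∀ v, f v ∈ I) ∧ Function.Injective f := by
    obtain ⟨e⟩ : Nonempty (V ↪ I) := by
      apply Function.Embedding.nonempty_of_card_le
      rw [Fintype.card_coe, ← Finset.card_univ]
      exact hc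
    exact ⟨fun v => (e v : W), fun v => (e v).2, fun a b h => e.injective (Subtype.ext h)⟩
  exact ⟨f, hinj, fun u v _ => hI _ (hf u) _ (hf v)⟩

/-- A graph which is reached from a connected graph by contractions is connected. -/
theorem conn_of_map {V V' : Type} {G : SimpleGraph V} {G' : SimpleGraph V'}
    (hG : G.Connected) (π : V → V') (hs : Function.Surjective π)
    (h : ∀ a b, G.Adj a b → π a = π b ∨ G'.Adj (π a) (π b)) : G'.Connected := by
  have key : ∀ a b, G.Reachable a b → G'.Reachable (π a) (π b) := by
    intro a b hab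
    obtain ⟨w⟩ := hab
    induction w with
    | nil => exact SimpleGraph.Reachable.refl _
    | cons hadj _ ih =>
      rcases h _ _ hadj with h1 | h1
      · rw [h1]
        exact ih
      · exact h1.reachable.trans ih
  have : Nonempty V := hG.nonempty
  have : Nonempty V' := hG.nonempty.map π
  refine ⟨fun a b => ?_⟩
  obtain ⟨a', rfl⟩ := hs a
  obtain ⟨b', rfl⟩ := hs b
  exact key a' b' (hG.preconnected a' b')

end Pool.Agent.MP_fb5c70_coL
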