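import Pool.Agent.Lib.MP_fb5c70_coL.Defs

/-!
# Reduction 2: two adjacent vertices of degree two, with different other neighbours
-/

set_option autoImplicit false

noncomputable section

open Classical

namespace Pool.Agent.MP_fb5c70_coL

variable {V W : Type} [Fintype V] [Fintype W]

/-- The contracted graph: the edge `v q` is replaced by `u q`. -/
def pathG (G : SimpleGraph V) (u v q : V) (huq : q ≠ u) : SimpleGraph {y : V // y ≠ v} where
  Adj a b := G.Adj a b ∨ (a.1 = u ∧ b.1 = q) ∨ (a.1 = q ∧ b.1 = u)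
  symm := ⟨by
    intro a b h
    rcases h with h | h | h
    · exact Or.inl h.symm
    · exact Or.inr (Or.inr ⟨h.2, h.1⟩)
    · exact Or.inr (Or.inl ⟨h.2, h.1⟩)⟩
  loopless := ⟨by
    intro a h
    rcases h with h | h | h
    · exact G.loopless.irrefl _ h
    · exact huq (h.2.symm.trans h.1)
    · exact huq (h.1.symm.trans h.2)⟩

omit [Fintype V] in
theorem pathG_conn (G : SimpleGraph V) (hG : G.Connected) (u v q : V) (hqu : q ≠ u)
    (huv : G.Adj u v) (hv : ∀ y, G.Adj v y → y = u ∨ y = q) :
    (pathG G u v q hqu).Connected := by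
  have hne : u ≠ v := huv.ne
  refine conn_of_map hG (fun y => if h : y = v then ⟨u, hne⟩ else ⟨y, h⟩) ?_ ?_
  · intro y
    refine ⟨y.1, ?_⟩
    simp only [dif_neg y.2]
  · intro a b hab
    by_cases ha : a = v
    · have hb : b ≠ v := fun h => hab.ne (ha.trans h.symm)
      subst ha
      simp only [dif_pos, dif_neg hb]
      rcases hv b hab with h | h
      · left
        exact Subtype.ext h.symm
      · right
        exact Or.inr (Or.inl ⟨rfl, h⟩)
    · by_cases hb : b = v
      · subst hb
        simp only [dif_pos, dif_neg ha]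
        rcases hv a hab.symm with h | h
        · left
          exact Subtype.ext h
        · right
          exact Or.inr (Or.inr ⟨h, rfl⟩)
      · simp only [dif_neg ha, dif_neg hb]
        right
        exact Or.inl hab

theorem pathG_dg (G : SimpleGraph V) (u v q : V) (hqu : q ≠ u)
    (huv : G.Adj u v) (hvq : G.Adj v q) (x : {y : V // y ≠ v}) :
    dg (pathG G u v q hqu) x ≤ dg G x.1 := by
  unfold dg
  refine Finset.card_le_card_of_injOn (fun y => if G.Adj x.1 y.1 then y.1 else v) ?_ ?_
  · intro y hy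
    have hy' := mem_nb.1 (Finset.mem_coe.1 hy)
    refine Finset.mem_coe.2 (mem_nb.2 ?_)
    show G.Adj x.1 (if G.Adj x.1 y.1 then y.1 else v)
    by_cases h : G.Adj x.1 y.1
    · rw [if_pos h]
      exact h
    · rw [if_neg h]
      rcases hy' with h1 | h1 | h1
      · exact absurd h1 h
      · rw [h1.1]
        exact huv
      · rw [h1.1]
        exact hvq.symm
  · intro y hy z hz hyz
    have hy' := mem_nb.1 (Finset.mem_coe.1 hy)
    have hz' := mem_nb.1 (Finset.mem_coe.1 hz)
    have hyz' : (if G.Adj x.1 y.1 then y.1 else v) = (if G.Adj x.1 z.1 then z.1 else v) := hyz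
    by_cases h : G.Adj x.1 y.1
    · rw [if_pos h] at hyz'
      by_cases h2 : G.Adj x.1 z.1
      · rw [if_pos h2] at hyz'
        exact Subtype.ext hyz'
      · rw [if_neg h2] at hyz'
        exact absurd hyz' y.2
    · rw [if_neg h] at hyz'
      by_cases h2 : G.Adj x.1 z.1
      · rw [if_pos h2] at hyz'
        exact absurd hyz'.symm z.2
      · rcases hy' with h3 | h3 | h3
        · exact absurd h3 h
        · rcases hz' with h4 | h4 | h4
          · exact absurd h4 h2
          · exact Subtype.ext (h3.2.trans h4.2.symm)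
          · exact absurd (h4.1.symm.trans h3.1) hqu
        · rcases hz' with h4 | h4 | h4
          · exact absurd h4 h2
          · exact absurd (h3.1.symm.trans h4.1) hqu
          · exact Subtype.ext (h3.2.trans h4.2.symm)

theorem pathG_dsum (G : SimpleGraph V) (u v q : V) (hqu : q ≠ u)
    (huv : G.Adj u v) (hvq : G.Adj v q) :
    dsum (pathG G u v q hqu) + 2 ≤ dsum G := by
  have h1 : dsum (pathG G u v q hqu) ≤ ∑ x : {y : V // y ≠ v}, dg G x.1 :=
    Finset.sum_le_sum fun x _ => pathG_dg G u v q hqu huv hvq x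
  have h2 : ∑ x : {y : V // y ≠ v}, dg G x.1 = ∑ x ∈ Finset.univ.erase v, dg G x := by
    rw [← Finset.sum_subtype (Finset.univ.erase v) (p := fun y => y ≠ v)
      (f := fun y => dg G y)]
    intro x
    simp
  have h3 : dsum G = ∑ x ∈ Finset.univ.erase v, dg G x + dg G v := by
    unfold dsum
    rw [Finset.sum_erase_add _ _ (Finset.mem_univ v)]
  have h4 : 2 ≤ dg G v := by
    have hsub : ({u, q} : Finset V) ⊆ nb G v := by
      intro y hy
      rw [Finset.mem_insert, Finset.mem_singleton] at hy
      rcases hy with h | h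
      · rw [h]
        exact mem_nb.2 huv.symm
      · rw [h]
        exact mem_nb.2 hvq
    have := Finset.card_le_card hsub
    rw [Finset.card_pair (Ne.symm hqu)] at this
    exact this
  omega

omit [Fintype V] [Fintype W] in
/-- Replace the images of `u` and `v`. -/
theorem emb_two (G : SimpleGraph V) (H : SimpleGraph W) (u v p q : V) (huv : G.Adj u v)
    (hpv : p ≠ v) (hpu : p ≠ u) (hqu : q ≠ u) (hqv : q ≠ v)
    (hu : ∀ y, G.Adj u y → y = v ∨ y = p) (hv : ∀ y, G.Adj v y → y = u ∨ y = q)
    (f : {y : V // y ≠ v} → W) (hf : Function.Injective f)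
    (hfe : ∀ a b : {y : V // y ≠ v}, G.Adj a.1 b.1 → ¬ H.Adj (f a) (f b))
    (s t : W) (hst : s ≠ t) (hs : ∀ y, y.1 ≠ u → f y ≠ s) (ht : ∀ y, y.1 ≠ u → f y ≠ t)
    (hsP : ¬ H.Adj (f ⟨p, hpv⟩) s) (htQ : ¬ H.Adj (f ⟨q, hqv⟩) t) (hadj : ¬ H.Adj s t) :
    Emb G H := by
  have hne : u ≠ v := huv.ne
  refine ⟨fun y => if y = u then s else if h : y = v then t else f ⟨y, h⟩, ?_, ?_⟩
  · intro a b hab
    have hab' : (if a = u then s else if h : a = v then t else f ⟨a, h⟩) =
      (if b = u then s else if h : b = v then t else f ⟨b, h⟩) := hab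
    by_cases ha : a = u
    · by_cases hb : b = u
      · exact ha.trans hb.symm
      · rw [if_pos ha, if_neg hb] at hab'
        by_cases hb2 : b = v
        · rw [dif_pos hb2] at hab'
          exact absurd hab' hst
        · rw [dif_neg hb2] at hab'
          exact absurd hab'.symm (hs ⟨b, hb2⟩ hb)
    · rw [if_neg ha] at hab'
      by_cases ha2 : a = v
      · rw [dif_pos ha2] at hab'
        by_cases hb : b = u
        · rw [if_pos hb] at hab'
          exact absurd hab'.symm hst
        · rw [if_neg hb] at hab'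
          by_cases hb2 : b = v
          · exact ha2.trans hb2.symm
          · rw [dif_neg hb2] at hab'
            exact absurd hab'.symm (ht ⟨b, hb2⟩ hb)
      · rw [dif_neg ha2] at hab'
        by_cases hb : b = u
        · rw [if_pos hb] at hab'
          exact absurd hab' (hs ⟨a, ha2⟩ ha)
        · rw [if_neg hb] at hab'
          by_cases hb2 : b = v
          · rw [dif_pos hb2] at hab'
            exact absurd hab' (ht ⟨a, ha2⟩ ha)
          · rw [dif_neg hb2] at hab'
            exact congrArg Subtype.val (hf hab')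
  · -- edges
    have key : ∀ a b : V, G.Adj a b → a = u ∨ (a = v ∧ b ≠ u) ∨
        (a ≠ u ∧ a ≠ v ∧ b ≠ u ∧ b ≠ v) → ¬ H.Adj
        (if a = u then s else if h : a = v then t else f ⟨a, h⟩)
        (if b = u then s else if h : b = v then t else f ⟨b, h⟩) := by
      intro a b hab hc
      rcases hc with h | ⟨h, h'⟩ | ⟨h1, h2, h3, h4⟩
      · subst h
        rcases hu b hab with h2 | h2
        · subst h2
          rw [if_pos rfl, if_neg hne.symm, dif_pos rfl]
          exact hadj
        · subst h2
          rw [if_pos rfl, if_neg hpu, dif_neg hpv]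
          exact fun h => hsP h.symm
      · subst h
        rcases hv b hab with h2 | h2
        · exact absurd h2 h'
        · subst h2
          rw [if_neg hne.symm, dif_pos rfl, if_neg hqu, dif_neg hqv]
          exact fun h => htQ h.symm
      · rw [if_neg h1, dif_neg h2, if_neg h3, dif_neg h4]
        exact hfe _ _ hab
    intro a b hab
    show ¬ H.Adj (if a = u then s else if h : a = v then t else f ⟨a, h⟩)
        (if b = u then s else if h : b = v then t else f ⟨b, h⟩)
    by_cases ha : a = u
    · exact key a b hab (Or.inl ha)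
    · by_cases hb : b = u
      · exact fun h => key b a hab.symm (Or.inl hb) h.symm
      · by_cases ha2 : a = v
        · exact key a b hab (Or.inr (Or.inl ⟨ha2, hb⟩))
        · by_cases hb2 : b = v
          · exact fun h => key b a hab.symm (Or.inr (Or.inl ⟨hb2, ha⟩)) h.symm
          · exact key a b hab (Or.inr (Or.inr ⟨ha, ha2, hb, hb2⟩))

omit [Fintype W] in
/-- All but `u` into an independent set. -/
theorem emb_cherry (G : SimpleGraph V) (H : SimpleGraph W) (u v p : V)
    (huv : G.Adj u v) (hup : G.Adj u p) (hpv : p ≠ v)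
    (hu : ∀ y, G.Adj u y → y = v ∨ y = p)
    (R : Finset W) (hR : Ind H R) (hc : Fintype.card V ≤ R.card + 1) (z r₁ r₂ : W)
    (hz : z ∉ R) (h1 : r₁ ∈ R) (h2 : r₂ ∈ R) (h12 : r₁ ≠ r₂) (hz1 : ¬ H.Adj z r₁)
    (hz2 : ¬ H.Adj z r₂) : Emb G H := by
  have hne : u ≠ v := huv.ne
  have hpu : u ≠ p := hup.ne
  obtain ⟨e⟩ : Nonempty ({y : V // y ∈ ((Finset.univ.erase u).erase p).erase v} ↪
      {w : W // w ∈ (R.erase r₁).erase r₂}) := by
    apply Function.Embedding.nonempty_of_card_le
    rw [Fintype.card_coe, Fintype.card_coe, Finset.card_erase_of_mem, Finset.card_erase_of_mem,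
      Finset.card_erase_of_mem, Finset.card_erase_of_mem, Finset.card_erase_of_mem,
      Finset.card_univ]
    · omega
    · exact h1
    · exact Finset.mem_erase.2 ⟨h12.symm, h2⟩
    · exact Finset.mem_univ _
    · exact Finset.mem_erase.2 ⟨hpu.symm, Finset.mem_univ _⟩
    · exact Finset.mem_erase.2 ⟨hpv.symm, Finset.mem_erase.2 ⟨hne.symm, Finset.mem_univ _⟩⟩
  have hmem : ∀ y, y ≠ u → y ≠ p → y ≠ v → y ∈ ((Finset.univ.erase u).erase p).erase v := by
    intro y ha hb hc'
    exact Finset.mem_erase.2 ⟨hc', Finset.mem_erase.2 ⟨hb, Finset.mem_erase.2 ⟨ha,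
      Finset.mem_univ _⟩⟩⟩
  obtain ⟨e', he'R, he'i⟩ : ∃ e' : V → W, (∀ y, y ≠ u → y ≠ p → y ≠ v →
      e' y ∈ R ∧ e' y ≠ r₁ ∧ e' y ≠ r₂) ∧ (∀ y z, y ≠ u → y ≠ p → y ≠ v → z ≠ u → z ≠ p →
      z ≠ v → e' y = e' z → y = z) := by
    refine ⟨fun y => if h : y ∈ ((Finset.univ.erase u).erase p).erase v then (e ⟨y, h⟩).1
      else z, ?_, ?_⟩
    · intro y ha hb hc'
      simp only [dif_pos (hmem y ha hb hc')]
      have := (e ⟨y, hmem y ha hb hc'⟩).2
      rw [Finset.mem_erase, Finset.mem_erase] at this
      exact ⟨this.2.2, this.2.1, this.1⟩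
    · intro y w ha hb hc' ha' hb' hc'' h
      simp only [dif_pos (hmem y ha hb hc'), dif_pos (hmem w ha' hb' hc'')] at h
      have := e.injective (Subtype.ext h)
      exact congrArg Subtype.val this
  -- the map on `V - u`
  have hgR : ∀ y, y ≠ u → (if y = p then r₁ else if y = v then r₂ else e' y) ∈ R := by
    intro y hy
    by_cases hb : y = p
    · rw [if_pos hb]
      exact h1
    · by_cases hc' : y = v
      · rw [if_neg hb, if_pos hc']
        exact h2
      · rw [if_neg hb, if_neg hc']
        exact (he'R y hy hb hc').1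
  have hgi : ∀ y w, y ≠ u → w ≠ u → (if y = p then r₁ else if y = v then r₂ else e' y) =
      (if w = p then r₁ else if w = v then r₂ else e' w) → y = w := by
    intro y w hy hw h
    by_cases a1 : y = p
    · rw [if_pos a1] at h
      by_cases b1 : w = p
      · exact a1.trans b1.symm
      · rw [if_neg b1] at h
        by_cases b2 : w = v
        · rw [if_pos b2] at h
          exact absurd h h12
        · rw [if_neg b2] at h
          exact absurd h.symm (he'R w hw b1 b2).2.1
    · rw [if_neg a1] at h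
      by_cases a2 : y = v
      · rw [if_pos a2] at h
        by_cases b1 : w = p
        · rw [if_pos b1] at h
          exact absurd h.symm h12
        · rw [if_neg b1] at h
          by_cases b2 : w = v
          · exact a2.trans b2.symm
          · rw [if_neg b2] at h
            exact absurd h.symm (he'R w hw b1 b2).2.2
      · rw [if_neg a2] at h
        by_cases b1 : w = p
        · rw [if_pos b1] at h
          exact absurd h (he'R y hy a1 a2).2.1
        · rw [if_neg b1] at h
          by_cases b2 : w = v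
          · rw [if_pos b2] at h
            exact absurd h (he'R y hy a1 a2).2.2
          · rw [if_neg b2] at h
            exact he'i y w hy a1 a2 hw b1 b2 h
  refine ⟨fun y => if y = u then z else (if y = p then r₁ else if y = v then r₂ else e' y),
    ?_, ?_⟩
  · intro a b hab
    have hab' : (if a = u then z else (if a = p then r₁ else if a = v then r₂ else e' a)) =
      (if b = u then z else (if b = p then r₁ else if b = v then r₂ else e' b)) := hab
    by_cases ha : a = u
    · by_cases hb : b = u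
      · exact ha.trans hb.symm
      · rw [if_pos ha, if_neg hb] at hab'
        exact absurd (hab' ▸ hgR b hb) hz
    · by_cases hb : b = u
      · rw [if_neg ha, if_pos hb] at hab'
        exact absurd (hab' ▸ hgR a ha) hz
      · rw [if_neg ha, if_neg hb] at hab'
        exact hgi a b ha hb hab'
  · have key : ∀ b : V, G.Adj u b → ¬ H.Adj z
        (if b = u then z else (if b = p then r₁ else if b = v then r₂ else e' b)) := by
      intro b hb
      rw [if_neg hb.ne.symm]
      rcases hu b hb with h | h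
      · subst h
        rw [if_neg (Ne.symm hpv), if_pos rfl]
        exact hz2
      · rw [if_pos h]
        exact hz1
    intro a b hab
    show ¬ H.Adj (if a = u then z else (if a = p then r₁ else if a = v then r₂ else e' a))
      (if b = u then z else (if b = p then r₁ else if b = v then r₂ else e' b))
    by_cases ha : a = u
    · subst ha
      rw [if_pos rfl]
      exact key b hab
    · by_cases hb : b = u
      · subst hb
        intro h
        refine key a hab.symm ?_
        rw [if_pos rfl] at h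
        exact h.symm
      · rw [if_neg ha, if_neg hb]
        exact hR _ (hgR a ha) _ (hgR b hb)

/-- `G'` on `{y // y ≠ v}`: the edge `v q` is replaced by `u q` (contraction of `u v`). Let `f`
embed `G'`, `P, U, Q` the images of `p, u, q`, `X'` the complement of the image of `f` plus `U`, so
`|X'| ≥ |V| + 1`; `A`, `B` the blue neighbours of `P`, `Q` in `X'`; `U ∈ A ∩ B`, `|A|, |B| ≥ 2`.
If `a ∈ A - U` is blue to `U`: `u ↦ a, v ↦ U`. If `b ∈ B - U` is blue to `U`: `u ↦ U, v ↦ b`. Else
`(A ∪ B) - U` is in the red neighbourhood of `U`, so independent; if `a ∈ A - U`, `b ∈ B - U`,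
`a ≠ b`: `u ↦ a, v ↦ b`. Else `A = B = {U, a}` and `R = X' - {U, a}` is in the red neighbourhood of
`P`: independent, `|R| = |V| - 1 ≥ 3`; `U a` is red, so every `r ∈ R` is blue to `U` or `a`; one of
them, `z`, has two blue neighbours `r₁, r₂` in `R`: `u ↦ z, p ↦ r₁, v ↦ r₂`, all the others go
to `R - {r₁, r₂}`. -/
theorem red_path (G : SimpleGraph V) (H : SimpleGraph W) (hG : G.Connected) (hH : TF H)
    (hα : ∀ I, Ind H I → I.card + 1 ≤ Fintype.card V)
    (hN : 2 * Fintype.card V ≤ Fintype.card W + 1) (u v p q : V) (huv : G.Adj u v)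
    (hup : G.Adj u p) (hvq : G.Adj v q) (hpv : p ≠ v) (hqu : q ≠ u) (hpq : p ≠ q)
    (hu : ∀ y, G.Adj u y → y = v ∨ y = p) (hv : ∀ y, G.Adj v y → y = u ∨ y = q) :
    ∃ (V' : Type) (_ : Fintype V') (G' : SimpleGraph V'), G'.Connected ∧
      Fintype.card V' + 1 = Fintype.card V ∧ dsum G' + 2 ≤ dsum G ∧ (Emb G' H → Emb G H) := by
  have hne : u ≠ v := huv.ne
  have hpu : p ≠ u := hup.ne.symm
  have hqv : q ≠ v := hvq.ne.symm
  have hcard : Fintype.card {y : V // y ≠ v} + 1 = Fintype.card V := by
    have h0 : 0 < Fintype.card V := Fintype.card_pos_iff.2 ⟨v⟩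
    rw [Fintype.card_subtype_compl, Fintype.card_subtype_eq]
    omega
  refine ⟨{y : V // y ≠ v}, inferInstance, pathG G u v q hqu,
    pathG_conn G hG u v q hqu huv hv, hcard, pathG_dsum G u v q hqu huv hvq, ?_⟩
  rintro ⟨f, hf, hfe⟩
  have hfe1 : ∀ a b : {y : V // y ≠ v}, G.Adj a.1 b.1 → ¬ H.Adj (f a) (f b) :=
    fun a b h => hfe a b (Or.inl h)
  set U := f ⟨u, hne⟩ with hU
  set P := f ⟨p, hpv⟩ with hP
  set Q := f ⟨q, hqv⟩ with hQ
  -- the free places
  set X : Finset W := (Finset.univ \ (Finset.univ.image f)) ∪ {U} with hX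
  have hXf : ∀ w ∈ X, ∀ y : {y : V // y ≠ v}, y.1 ≠ u → f y ≠ w := by
    intro w hw y hy h
    rw [hX, Finset.mem_union, Finset.mem_sdiff, Finset.mem_singleton] at hw
    rcases hw with hw | hw
    · exact hw.2 (Finset.mem_image.2 ⟨y, Finset.mem_univ _, h⟩)
    · rw [hw, hU] at h
      exact hy (congrArg Subtype.val (hf h))
  have hUX : U ∈ X := by
    rw [hX]
    exact Finset.mem_union_right _ (Finset.mem_singleton_self _)
  have hXc : Fintype.card V + 1 ≤ X.card := by
    have hd : Disjoint (Finset.univ \ (Finset.univ.image f)) ({U} : Finset W) := by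
      rw [Finset.disjoint_singleton_right, Finset.mem_sdiff]
      rintro ⟨_, h⟩
      exact h (Finset.mem_image.2 ⟨⟨u, hne⟩, Finset.mem_univ _, rfl⟩)
    have h1 : (Finset.univ.image f).card = Fintype.card {y : V // y ≠ v} := by
      rw [Finset.card_image_of_injective _ hf, Finset.card_univ]
    rw [hX, Finset.card_union_of_disjoint hd, Finset.card_singleton,
      Finset.card_sdiff_of_subset (Finset.subset_univ _), h1, Finset.card_univ]
    omega
  -- blue neighbours of a vertex in `X`
  have hblue : ∀ w : W, 2 ≤ (X.filter fun x => ¬ H.Adj w x).card := by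
    intro w
    have h1 : X ⊆ (X.filter fun x => ¬ H.Adj w x) ∪ nb H w := by
      intro x hx
      rw [Finset.mem_union, Finset.mem_filter]
      by_cases h : H.Adj w x
      · right
        exact mem_nb.2 h
      · left
        exact ⟨hx, h⟩
    have h2 := Finset.card_le_card h1
    have h3 := Finset.card_union_le (X.filter fun x => ¬ H.Adj w x) (nb H w)
    have h4 := hα _ (nb_ind hH w)
    omega
  have hexU : ∀ w : W, ∃ a ∈ X, a ≠ U ∧ ¬ H.Adj w a := by
    intro w
    have h1 : 1 < (X.filter fun x => ¬ H.Adj w x).card := hblue w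
    obtain ⟨a, ha, hne'⟩ := Finset.exists_mem_ne h1 U
    rw [Finset.mem_filter] at ha
    exact ⟨a, ha.1, hne', ha.2⟩
  have hPU : ¬ H.Adj P U := hfe1 ⟨p, hpv⟩ ⟨u, hne⟩ hup.symm
  have hQU : ¬ H.Adj Q U := hfe ⟨q, hqv⟩ ⟨u, hne⟩ (Or.inr (Or.inr ⟨rfl, rfl⟩))
  have two := emb_two G H u v p q huv hpv hpu hqu hqv hu hv f hf hfe1
  -- case 1
  by_cases c1 : ∃ a ∈ X, a ≠ U ∧ ¬ H.Adj P a ∧ ¬ H.Adj a U
  · obtain ⟨a, haX, haU, haP, haU'⟩ := c1
    exact two a U haU (hXf a haX) (hXf U hUX) haP hQU haU'
  by_cases c2 : ∃ b ∈ X, b ≠ U ∧ ¬ H.Adj Q b ∧ ¬ H.Adj U b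
  · obtain ⟨b, hbX, hbU, hbQ, hbU'⟩ := c2
    exact two U b hbU.symm (hXf U hUX) (hXf b hbX) hPU hbQ hbU'
  have d1 : ∀ a ∈ X, a ≠ U → ¬ H.Adj P a → H.Adj a U := by
    intro a h1 h2 h3
    by_contra h4
    exact c1 ⟨a, h1, h2, h3, h4⟩
  have d2 : ∀ b ∈ X, b ≠ U → ¬ H.Adj Q b → H.Adj U b := by
    intro b h1 h2 h3
    by_contra h4
    exact c2 ⟨b, h1, h2, h3, h4⟩
  by_cases c3 : ∃ a ∈ X, a ≠ U ∧ ¬ H.Adj P a ∧ ∃ b ∈ X, b ≠ U ∧ ¬ H.Adj Q b ∧ a ≠ b
  · obtain ⟨a, haX, haU, haP, b, hbX, hbU, hbQ, hab⟩ := c3
    exact two a b hab (hXf a haX) (hXf b hbX) haP hbQ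
      (fun h => hH _ _ _ (d1 a haX haU haP) (d2 b hbX hbU hbQ) h)
  -- case 4
  obtain ⟨b, hbX, hbU, hbQ⟩ := hexU Q
  obtain ⟨a, haX, haU, haP⟩ := hexU P
  have hA : ∀ x ∈ X, x ≠ U → ¬ H.Adj P x → x = a := by
    intro x hx h1 h2
    by_contra h3
    have hxb : x = b := by
      by_contra h4
      exact c3 ⟨x, hx, h1, h2, b, hbX, hbU, hbQ, h4⟩
    have hab : a = b := by
      by_contra h4
      exact c3 ⟨a, haX, haU, haP, b, hbX, hbU, hbQ, h4⟩
    exact h3 (hxb.trans hab.symm)
  have haUr : H.Adj a U := d1 a haX haU haP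
  set R : Finset W := (X.erase U).erase a with hR
  have hRP : R ⊆ nb H P := by
    intro r hr
    rw [hR, Finset.mem_erase, Finset.mem_erase] at hr
    refine mem_nb.2 ?_
    by_contra h
    exact hr.1 (hA r hr.2.2 hr.2.1 h)
  have hRI : Ind H R := (nb_ind hH P).mono hRP
  have hRc : Fintype.card V ≤ R.card + 1 := by
    rw [hR, Finset.card_erase_of_mem (Finset.mem_erase.2 ⟨haU, haX⟩),
      Finset.card_erase_of_mem hUX]
    omega
  have hV4 : 4 ≤ Fintype.card V := by
    have h1 : ({u, v, p, q} : Finset V).card = 4 := by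
      rw [Finset.card_insert_of_notMem, Finset.card_insert_of_notMem,
        Finset.card_insert_of_notMem, Finset.card_singleton]
      · rw [Finset.mem_singleton]
        exact hpq
      · rw [Finset.mem_insert, Finset.mem_singleton]
        rintro (h | h)
        · exact hpv h.symm
        · exact hqv h.symm
      · rw [Finset.mem_insert, Finset.mem_insert, Finset.mem_singleton]
        rintro (h | h | h)
        · exact hne h
        · exact hpu h.symm
        · exact hqu h.symm
    rw [← h1, ← Finset.card_univ]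
    exact Finset.card_le_card (Finset.subset_univ _)
  have hUR : U ∉ R := by
    rw [hR, Finset.mem_erase, Finset.mem_erase]
    exact fun h => h.2.1 rfl
  have haR : a ∉ R := by
    rw [hR, Finset.mem_erase]
    exact fun h => h.1 rfl
  have hcov : R ⊆ (R.filter fun r => ¬ H.Adj U r) ∪ (R.filter fun r => ¬ H.Adj a r) := by
    intro r hr
    rw [Finset.mem_union, Finset.mem_filter, Finset.mem_filter]
    by_cases h : H.Adj U r
    · right
      exact ⟨hr, fun h' => hH _ _ _ haUr h h'⟩
    · left
      exact ⟨hr, h⟩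
  have h5 := Finset.card_le_card hcov
  have h6 := Finset.card_union_le (R.filter fun r => ¬ H.Adj U r) (R.filter fun r => ¬ H.Adj a r)
  have fin : ∀ z : W, z ∉ R → 1 < (R.filter fun r => ¬ H.Adj z r).card → Emb G H := by
    intro z hz h
    obtain ⟨r₁, h1, r₂, h2, h12⟩ := Finset.one_lt_card.1 h
    rw [Finset.mem_filter] at h1 h2
    exact emb_cherry G H u v p huv hup hpv hu R hRI hRc z r₁ r₂ hz h1.1 h2.1 h12 h1.2 h2.2
  by_cases h7 : 1 < (R.filter fun r => ¬ H.Adj U r).card
  · exact fin U hUR h7
  · exact fin a haR (by omega)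

end Pool.Agent.MP_fb5c70_coL
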