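import Pool.Agent.Lib.MP_fb5c70_coL.Defs

/-!
# Reduction 3: a pendant triangle
-/

set_option autoImplicit false

noncomputable section

open Classical

namespace Pool.Agent.MP_fb5c70_coL

variable {V W : Type} [Fintype V] [Fintype W]

/-- the induced graph on the vertices other than `u`, `v` -/
def Red3_G (G : SimpleGraph V) (u v : V) : SimpleGraph {y : V // y ≠ u ∧ y ≠ v} := G.comap Subtype.val

omit [Fintype V] in
theorem Red3_adj {G : SimpleGraph V} {u v : V} {a b : {y : V // y ≠ u ∧ y ≠ v}} :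
    (Red3_G G u v).Adj a b ↔ G.Adj a.1 b.1 := Iff.rfl

omit [Fintype V] in
theorem Red3_conn {G : SimpleGraph V} (hG : G.Connected) {u v p : V} (hpu : p ≠ u) (hpv : p ≠ v)
    (hu : ∀ y, G.Adj u y → y = v ∨ y = p) (hv : ∀ y, G.Adj v y → y = u ∨ y = p) :
    (Red3_G G u v).Connected := by
  refine conn_of_map hG (fun y => if h : y ≠ u ∧ y ≠ v then ⟨y, h⟩ else ⟨p, hpu, hpv⟩) ?_ ?_
  · intro y
    exact ⟨y.1, dif_pos y.2⟩
  · intro a b hab
    have key : ∀ a b, G.Adj a b → ¬ (a ≠ u ∧ a ≠ v) →
        (if h : a ≠ u ∧ a ≠ v then (⟨a, h⟩ : {y : V // y ≠ u ∧ y ≠ v}) else ⟨p, hpu, hpv⟩) =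
        (if h : b ≠ u ∧ b ≠ v then (⟨b, h⟩ : {y : V // y ≠ u ∧ y ≠ v}) else ⟨p, hpu, hpv⟩) := by
      intro a b hab ha
      rw [dif_neg ha]
      by_cases hb : b ≠ u ∧ b ≠ v
      · rw [dif_pos hb]
        have h1 : b = p := by
          by_cases h2 : a = u
          · rw [h2] at hab
            rcases hu b hab with h3 | h3
            · exact absurd h3 hb.2
            · exact h3
          · have h4 : a = v := by
              by_contra h5
              exact ha ⟨h2, h5⟩
            rw [h4] at hab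
            rcases hv b hab with h3 | h3
            · exact absurd h3 hb.1
            · exact h3
        exact Subtype.ext h1.symm
      · rw [dif_neg hb]
    by_cases ha : a ≠ u ∧ a ≠ v
    · by_cases hb : b ≠ u ∧ b ≠ v
      · right
        show G.Adj (if h : a ≠ u ∧ a ≠ v then (⟨a, h⟩ : {y : V // y ≠ u ∧ y ≠ v}) else ⟨p, hpu, hpv⟩).1
          (if h : b ≠ u ∧ b ≠ v then (⟨b, h⟩ : {y : V // y ≠ u ∧ y ≠ v}) else ⟨p, hpu, hpv⟩).1
        rw [dif_pos ha, dif_pos hb]
        exact hab
      · left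
        exact (key b a hab.symm hb).symm
    · left
      exact key a b hab ha

theorem Red3_card {u v : V} (huv : u ≠ v) : Fintype.card {y : V // y ≠ u ∧ y ≠ v} + 2 = Fintype.card V := by
  have h1 : (Finset.univ.filter fun y : V => y ≠ u ∧ y ≠ v) = (Finset.univ.erase u).erase v := by
    ext y
    simp only [Finset.mem_filter, Finset.mem_univ, true_and, Finset.mem_erase, and_true]
    exact and_comm
  have h2 : v ∈ (Finset.univ : Finset V).erase u := Finset.mem_erase.2 ⟨huv.symm, Finset.mem_univ _⟩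
  have h3 := Finset.card_erase_add_one h2
  have h4 := Finset.card_erase_add_one (Finset.mem_univ u)
  rw [Fintype.card_subtype, h1, ← Finset.card_univ]
  omega

theorem Red3_nb (G : SimpleGraph V) {u v : V} (x : {y : V // y ≠ u ∧ y ≠ v}) :
    (nb (Red3_G G u v) x).image Subtype.val = ((nb G x.1).erase u).erase v := by
  ext y
  rw [Finset.mem_image, Finset.mem_erase, Finset.mem_erase]
  constructor
  · rintro ⟨z, hz, rfl⟩
    exact ⟨z.2.2, z.2.1, mem_nb.2 (Red3_adj.1 (mem_nb.1 hz))⟩
  · rintro ⟨h1, h2, h3⟩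
    exact ⟨⟨y, h2, h1⟩, mem_nb.2 (Red3_adj.2 (mem_nb.1 h3)), rfl⟩

theorem Red3_dg (G : SimpleGraph V) {u v : V} (x : {y : V // y ≠ u ∧ y ≠ v}) :
    dg (Red3_G G u v) x = (((nb G x.1).erase u).erase v).card := by
  rw [← Red3_nb, Finset.card_image_of_injective _ Subtype.val_injective, dg]

theorem Red3_dsum {G : SimpleGraph V} {u v p : V} (huv : G.Adj u v) (hup : G.Adj u p) (hvp : G.Adj v p) :
    dsum (Red3_G G u v) + 6 ≤ dsum G := by
  have hne := huv.ne
  have hpu : p ≠ u := hup.ne'
  have hpv : p ≠ v := hvp.ne'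
  have hu : 2 ≤ dg G u := by
    rw [dg, ← Finset.card_pair hvp.ne]
    refine Finset.card_le_card ?_
    intro y hy
    rw [Finset.mem_insert, Finset.mem_singleton] at hy
    rcases hy with rfl | rfl
    · exact mem_nb.2 huv
    · exact mem_nb.2 hup
  have hv : 2 ≤ dg G v := by
    rw [dg, ← Finset.card_pair hup.ne]
    refine Finset.card_le_card ?_
    intro y hy
    rw [Finset.mem_insert, Finset.mem_singleton] at hy
    rcases hy with rfl | rfl
    · exact mem_nb.2 huv.symm
    · exact mem_nb.2 hvp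
  have hle : ∀ x : {y : V // y ≠ u ∧ y ≠ v}, dg (Red3_G G u v) x ≤ dg G x.1 := by
    intro x
    rw [Red3_dg, dg]
    exact Finset.card_le_card ((Finset.erase_subset _ _).trans (Finset.erase_subset _ _))
  have hp : dg (Red3_G G u v) ⟨p, hpu, hpv⟩ + 2 ≤ dg G p := by
    rw [Red3_dg, dg]
    have h2 : u ∈ nb G p := mem_nb.2 hup.symm
    have h3 : v ∈ (nb G p).erase u := Finset.mem_erase.2 ⟨hne.symm, mem_nb.2 hvp.symm⟩
    have h4 := Finset.card_erase_add_one h2
    have h5 := Finset.card_erase_add_one h3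
    show (((nb G p).erase u).erase v).card + 2 ≤ (nb G p).card
    omega
  have hsum : dsum (Red3_G G u v) + 2 ≤ ∑ x : {y : V // y ≠ u ∧ y ≠ v}, dg G x.1 := by
    rw [dsum, ← Finset.add_sum_erase _ _ (Finset.mem_univ (⟨p, hpu, hpv⟩ : {y : V // y ≠ u ∧ y ≠ v})),
      ← Finset.add_sum_erase _ (fun x : {y : V // y ≠ u ∧ y ≠ v} => dg G x.1)
        (Finset.mem_univ (⟨p, hpu, hpv⟩ : {y : V // y ≠ u ∧ y ≠ v}))]
    have h6 : ∑ x ∈ Finset.univ.erase (⟨p, hpu, hpv⟩ : {y : V // y ≠ u ∧ y ≠ v}), dg (Red3_G G u v) x ≤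
        ∑ x ∈ Finset.univ.erase (⟨p, hpu, hpv⟩ : {y : V // y ≠ u ∧ y ≠ v}), dg G x.1 :=
      Finset.sum_le_sum fun x _ => hle x
    show dg (Red3_G G u v) ⟨p, hpu, hpv⟩ + _ + 2 ≤ dg G p + _
    omega
  have hall : dsum G = dg G u + (dg G v + ∑ x : {y : V // y ≠ u ∧ y ≠ v}, dg G x.1) := by
    rw [dsum, ← Finset.add_sum_erase _ _ (Finset.mem_univ u), ← Finset.add_sum_erase _ _
      (Finset.mem_erase.2 ⟨hne.symm, Finset.mem_univ v⟩)]
    congr 2
    refine Finset.sum_subtype _ (fun x => ?_) _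
    rw [Finset.mem_erase, Finset.mem_erase]
    constructor
    · rintro ⟨h1, h2, _⟩
      exact ⟨h2, h1⟩
    · rintro ⟨h1, h2⟩
      exact ⟨h2, h1, Finset.mem_univ _⟩
  rw [hall]
  omega

omit [Fintype V] [Fintype W] in
/-- The first way to embed: `u`, `v` to two blue neighbours of `P`, blue to each other. -/
theorem Red3_emb1 {G : SimpleGraph V} {H : SimpleGraph W} {u v p : V} (hne : u ≠ v) (hpu : p ≠ u) (hpv : p ≠ v)
    (hu : ∀ y, G.Adj u y → y = v ∨ y = p) (hv : ∀ y, G.Adj v y → y = u ∨ y = p)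
    {f : {y : V // y ≠ u ∧ y ≠ v} → W} (hf : Function.Injective f)
    (hfa : ∀ a b, (Red3_G G u v).Adj a b → ¬ H.Adj (f a) (f b)) {a b : W} (hab : a ≠ b)
    (ha : ∀ y, f y ≠ a) (hb : ∀ y, f y ≠ b) (hA : ¬ H.Adj a b) (hPa : ¬ H.Adj (f ⟨p, hpu, hpv⟩) a)
    (hPb : ¬ H.Adj (f ⟨p, hpu, hpv⟩) b) : Emb G H := by
  let g : V → W := fun y => if h : y ≠ u ∧ y ≠ v then f ⟨y, h⟩ else if y = u then a else b
  have gu : g u = a := by
    show (if h : u ≠ u ∧ u ≠ v then f ⟨u, h⟩ else if u = u then a else b) = a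
    rw [dif_neg fun h => h.1 rfl, if_pos rfl]
  have gv : g v = b := by
    show (if h : v ≠ u ∧ v ≠ v then f ⟨v, h⟩ else if v = u then a else b) = b
    rw [dif_neg fun h => h.2 rfl, if_neg hne.symm]
  have go : ∀ y (h : y ≠ u ∧ y ≠ v), g y = f ⟨y, h⟩ := fun y h => dif_pos h
  have key : ∀ x y, G.Adj x y → (x ≠ u ∧ x ≠ v) → ¬ H.Adj (g x) (g y) := by
    intro x y hxy hx
    by_cases hyu : y = u
    · have h1 : x = p := by
        rw [hyu] at hxy
        rcases hu x hxy.symm with h2 | h2
        · exact absurd h2 hx.2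
        · exact h2
      rw [hyu, gu, go x hx]
      have h3 : (⟨x, hx⟩ : {y : V // y ≠ u ∧ y ≠ v}) = ⟨p, hpu, hpv⟩ := Subtype.ext h1
      rw [h3]
      exact hPa
    · by_cases hyv : y = v
      · have h1 : x = p := by
          rw [hyv] at hxy
          rcases hv x hxy.symm with h2 | h2
          · exact absurd h2 hx.1
          · exact h2
        rw [hyv, gv, go x hx]
        have h3 : (⟨x, hx⟩ : {y : V // y ≠ u ∧ y ≠ v}) = ⟨p, hpu, hpv⟩ := Subtype.ext h1
        rw [h3]
        exact hPb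
      · rw [go x hx, go y ⟨hyu, hyv⟩]
        exact hfa _ _ hxy
  refine ⟨g, ?_, ?_⟩
  · intro x y hxy
    by_cases hx : x ≠ u ∧ x ≠ v
    · by_cases hy : y ≠ u ∧ y ≠ v
      · rw [go x hx, go y hy] at hxy
        exact congrArg Subtype.val (hf hxy)
      · rw [go x hx] at hxy
        by_cases hyu : y = u
        · rw [hyu, gu] at hxy
          exact absurd hxy (ha _)
        · have hyv : y = v := by
            by_contra h5
            exact hy ⟨hyu, h5⟩
          rw [hyv, gv] at hxy
          exact absurd hxy (hb _)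
    · by_cases hy : y ≠ u ∧ y ≠ v
      · rw [go y hy] at hxy
        by_cases hxu : x = u
        · rw [hxu, gu] at hxy
          exact absurd hxy.symm (ha _)
        · have hxv : x = v := by
            by_contra h5
            exact hx ⟨hxu, h5⟩
          rw [hxv, gv] at hxy
          exact absurd hxy.symm (hb _)
      · by_cases hxu : x = u
        · by_cases hyu : y = u
          · rw [hxu, hyu]
          · have hyv : y = v := by
              by_contra h5
              exact hy ⟨hyu, h5⟩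
            rw [hxu, hyv, gu, gv] at hxy
            exact absurd hxy hab
        · have hxv : x = v := by
            by_contra h5
            exact hx ⟨hxu, h5⟩
          by_cases hyu : y = u
          · rw [hxv, hyu, gu, gv] at hxy
            exact absurd hxy.symm hab
          · have hyv : y = v := by
              by_contra h5
              exact hy ⟨hyu, h5⟩
            rw [hxv, hyv]
  · intro x y hxy
    by_cases hx : x ≠ u ∧ x ≠ v
    · exact key x y hxy hx
    · by_cases hy : y ≠ u ∧ y ≠ v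
      · exact fun h => key y x hxy.symm hy h.symm
      · have h1 : ∀ z, ¬ (z ≠ u ∧ z ≠ v) → z = u ∨ z = v := by
          intro z hz
          by_contra h5
          rw [not_or] at h5
          exact hz h5
        rcases h1 x hx with h2 | h2 <;> rcases h1 y hy with h3 | h3
        · rw [h2, h3] at hxy
          exact absurd hxy (G.irrefl)
        · rw [h2, h3, gu, gv]
          exact hA
        · rw [h2, h3, gu, gv]
          exact fun h => hA h.symm
        · rw [h2, h3] at hxy
          exact absurd hxy (G.irrefl)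

omit [Fintype W] in
/-- The second way to embed: `u` to `z`, all the others into the independent set `R`. -/
theorem Red3_emb2 {G : SimpleGraph V} {H : SimpleGraph W} {u v p : V} (hne : u ≠ v) (hpu : p ≠ u) (hpv : p ≠ v)
    (hu : ∀ y, G.Adj u y → y = v ∨ y = p) {R : Finset W} (hR : Ind H R) (hc : Fintype.card V ≤ R.card + 1)
    {z r s : W} (hz : z ∉ R) (hr : r ∈ R) (hs : s ∈ R) (hrs : r ≠ s) (hzr : ¬ H.Adj z r) (hzs : ¬ H.Adj z s) :
    Emb G H := by
  obtain ⟨e⟩ : Nonempty ({y : V // y ≠ u} ↪ R) := by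
    apply Function.Embedding.nonempty_of_card_le
    rw [Fintype.card_coe]
    have h1 : Fintype.card {y : V // y ≠ u} = Fintype.card V - 1 := by
      rw [Fintype.card_subtype_compl, Fintype.card_subtype_eq]
    omega
  let p' : {y : V // y ≠ u} := ⟨p, hpu⟩
  let v' : {y : V // y ≠ u} := ⟨v, hne.symm⟩
  have hpv' : p' ≠ v' := fun h => hpv (congrArg Subtype.val h)
  let r' : R := ⟨r, hr⟩
  let s' : R := ⟨s, hs⟩
  have hrs' : r' ≠ s' := fun h => hrs (congrArg Subtype.val h)
  let e1 : {y : V // y ≠ u} → R := fun y => Equiv.swap (e p') r' (e y)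
  have he1 : Function.Injective e1 := (Equiv.injective _).comp e.injective
  have he1p : e1 p' = r' := Equiv.swap_apply_left _ _
  let e2 : {y : V // y ≠ u} → R := fun y => Equiv.swap (e1 v') s' (e1 y)
  have he2 : Function.Injective e2 := (Equiv.injective _).comp he1
  have he2v : e2 v' = s' := Equiv.swap_apply_left _ _
  have he2p : e2 p' = r' := by
    show Equiv.swap (e1 v') s' (e1 p') = r'
    rw [he1p]
    refine Equiv.swap_apply_of_ne_of_ne ?_ hrs'
    rw [← he1p]
    exact fun h => hpv' (he1 h)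
  let g : V → W := fun y => if h : y ≠ u then (e2 ⟨y, h⟩ : W) else z
  have gu : g u = z := dif_neg fun h => h rfl
  have go : ∀ y (h : y ≠ u), g y = (e2 ⟨y, h⟩ : W) := fun y h => dif_pos h
  have gp : g p = r := by
    rw [go p hpu]
    exact congrArg Subtype.val he2p
  have gv : g v = s := by
    rw [go v hne.symm]
    exact congrArg Subtype.val he2v
  refine ⟨g, ?_, ?_⟩
  · intro x y hxy
    by_cases hx : x ≠ u
    · by_cases hy : y ≠ u
      · rw [go x hx, go y hy] at hxy
        exact congrArg Subtype.val (he2 (Subtype.ext hxy))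
      · rw [not_not] at hy
        rw [go x hx, hy, gu] at hxy
        exact absurd (hxy ▸ (e2 ⟨x, hx⟩).2) hz
    · rw [not_not] at hx
      by_cases hy : y ≠ u
      · rw [hx, gu, go y hy] at hxy
        exact absurd (hxy ▸ (e2 ⟨y, hy⟩).2) hz
      · rw [not_not] at hy
        rw [hx, hy]
  · have key : ∀ y, G.Adj u y → ¬ H.Adj (g u) (g y) := by
      intro y hy
      rw [gu]
      rcases hu y hy with rfl | rfl
      · rw [gv]
        exact hzs
      · rw [gp]
        exact hzr
    intro x y hxy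
    by_cases hx : x ≠ u
    · by_cases hy : y ≠ u
      · rw [go x hx, go y hy]
        exact hR _ (e2 ⟨x, hx⟩).2 _ (e2 ⟨y, hy⟩).2
      · rw [not_not] at hy
        rw [hy] at hxy ⊢
        exact fun h => key x hxy.symm h.symm
    · rw [not_not] at hx
      rw [hx] at hxy ⊢
      exact key y hxy

/-- `G'` is the induced graph on `{y // y ≠ u ∧ y ≠ v}`. Let `f` embed `G'`, `X` the complement of
its image, `A` the blue neighbours of `P = f p` in `X`: `|A| ≥ (|W| - (|V| - 2)) - (|V| - 1) ≥ 2`.
If two elements of `A` are blue to each other: `u, v` there. Else `A` is a red clique, so `|A| = 2`,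
`A = {a, a'}`, `|W| = 2 |V| - 1`, `R = X - A` is in the red neighbourhood of `P`, independent,
`|R| = |V| - 1 ≥ 3` (as `|W| ≥ 7`), every `r ∈ R` is blue to `a` or `a'`; one of them, `z`, has two
blue neighbours `r₁, r₂` in `R`: `u ↦ z, p ↦ r₁, v ↦ r₂`, all the others to `R - {r₁, r₂}`. -/
theorem red_tri (G : SimpleGraph V) (H : SimpleGraph W) (hG : G.Connected) (hH : TF H)
    (hα : ∀ I, Ind H I → I.card + 1 ≤ Fintype.card V)
    (hN : 2 * Fintype.card V ≤ Fintype.card W + 1) (h7 : 7 ≤ Fintype.card W) (u v p : V)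
    (huv : G.Adj u v) (hup : G.Adj u p) (hvp : G.Adj v p)
    (hu : ∀ y, G.Adj u y → y = v ∨ y = p) (hv : ∀ y, G.Adj v y → y = u ∨ y = p) :
    ∃ (V' : Type) (_ : Fintype V') (G' : SimpleGraph V'), G'.Connected ∧
      Fintype.card V' + 2 = Fintype.card V ∧ dsum G' + 6 ≤ dsum G ∧ (Emb G' H → Emb G H) := by
  have hne := huv.ne
  have hpu : p ≠ u := hup.ne'
  have hpv : p ≠ v := hvp.ne'
  refine ⟨{y : V // y ≠ u ∧ y ≠ v}, inferInstance, Red3_G G u v, Red3_conn hG hpu hpv hu hv, Red3_card hne,
    Red3_dsum huv hup hvp, ?_⟩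
  rintro ⟨f, hf, hfa⟩
  have hcard := Red3_card (V := V) hne
  let X : Finset W := Finset.univ \ Finset.univ.image f
  have hX : X.card + Fintype.card V = Fintype.card W + 2 := by
    have h1 : (Finset.univ.image f).card = Fintype.card {y : V // y ≠ u ∧ y ≠ v} := by
      rw [Finset.card_image_of_injective _ hf, Finset.card_univ]
    have h2 := Finset.card_sdiff_add_card_eq_card (Finset.subset_univ (Finset.univ.image f))
    rw [h1, Finset.card_univ] at h2
    show (Finset.univ \ Finset.univ.image f).card + _ = _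
    omega
  have hXf : ∀ x ∈ X, ∀ y, f y ≠ x := by
    intro x hx y hy
    exact (Finset.mem_sdiff.1 hx).2 (Finset.mem_image.2 ⟨y, Finset.mem_univ _, hy⟩)
  let A : Finset W := X.filter fun x => ¬ H.Adj (f ⟨p, hpu, hpv⟩) x
  let R : Finset W := X.filter fun x => H.Adj (f ⟨p, hpu, hpv⟩) x
  have hAR : R.card + A.card = X.card := Finset.card_filter_add_card_filter_not _
  have hRi : Ind H R := (nb_ind hH (f ⟨p, hpu, hpv⟩)).mono fun x hx => mem_nb.2 (Finset.mem_filter.1 hx).2
  have hRc := hα R hRi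
  have hA2 : 2 ≤ A.card := by omega
  by_cases hblue : ∃ a ∈ A, ∃ b ∈ A, a ≠ b ∧ ¬ H.Adj a b
  · obtain ⟨a, ha, b, hb, hab, hadj⟩ := hblue
    have ha' := Finset.mem_filter.1 ha
    have hb' := Finset.mem_filter.1 hb
    exact Red3_emb1 hne hpu hpv hu hv hf hfa hab (hXf a ha'.1) (hXf b hb'.1) hadj ha'.2 hb'.2
  · have hred : ∀ a ∈ A, ∀ b ∈ A, a ≠ b → H.Adj a b := by
      intro a ha b hb hab
      by_contra h
      exact hblue ⟨a, ha, b, hb, hab, h⟩
    have hA3 : A.card ≤ 2 := by
      by_contra h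
      rw [not_le] at h
      obtain ⟨a, b, c, ha, hb, hc, hab, hac, hbc⟩ := Finset.two_lt_card_iff.1 h
      exact hH a b c (hred a ha b hb hab) (hred b hb c hc hbc) (hred a ha c hc hac)
    have hA : A.card = 2 := le_antisymm hA3 hA2
    obtain ⟨a, b, hab, hAe⟩ := Finset.card_eq_two.1 hA
    have haA : a ∈ A := by
      rw [hAe]
      exact Finset.mem_insert_self _ _
    have hbA : b ∈ A := by
      rw [hAe]
      exact Finset.mem_insert_of_mem (Finset.mem_singleton_self _)
    have hadj := hred a haA b hbA hab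
    have hRa : ∀ x ∈ A, x ∉ R := by
      intro x hx hx'
      exact (Finset.mem_filter.1 hx).2 (Finset.mem_filter.1 hx').2
    have hsplit : R.card ≤ (R.filter fun x => ¬ H.Adj a x).card + (R.filter fun x => ¬ H.Adj b x).card := by
      rw [← Finset.card_union_add_card_inter]
      refine le_trans (Finset.card_le_card ?_) (Nat.le_add_right _ _)
      intro x hx
      rw [Finset.mem_union]
      by_cases h1 : H.Adj a x
      · right
        exact Finset.mem_filter.2 ⟨hx, fun h2 => hH x a b h1.symm hadj h2.symm⟩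
      · left
        exact Finset.mem_filter.2 ⟨hx, h1⟩
    have hfin : ∀ z ∈ A, 1 < (R.filter fun x => ¬ H.Adj z x).card → Emb G H := by
      intro z hz h1
      obtain ⟨r, hr, s, hs, hrs⟩ := Finset.one_lt_card.1 h1
      rw [Finset.mem_filter] at hr hs
      exact Red3_emb2 hne hpu hpv hu hRi (by omega) (hRa z hz) hr.1 hs.1 hrs hr.2 hs.2
    by_cases h1 : 1 < (R.filter fun x => ¬ H.Adj a x).card
    · exact hfin a haA h1
    · refine hfin b hbA ?_
      omega

end Pool.Agent.MP_fb5c70_coL
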