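import Pool.Agent.Lib.MP_fb5c70_coL.Comp
import Pool.Agent.Lib.MP_fb5c70_coL.Cnt

/-!
# Case II.a: growth of a forest
-/

set_option autoImplicit false

noncomputable section

open Classical

namespace Pool.Agent.MP_fb5c70_coL

variable {V W : Type} [Fintype V] [Fintype W]

/-- A state of the growth: `A ⊆ B` placed in `D`, `T ⊆ S` placed outside of `D`, all the neighbours
of `T` are in `A`, and `2 |A| ≤ 2 |T| + 2 + EB A`. -/
structure State (G : SimpleGraph V) (H : SimpleGraph W) (D : Finset W) (A T : Finset V)
    (f : V → W) : Prop where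
  hA : A ⊆ Bv G
  hT : T ⊆ Sv G
  nb : ∀ t ∈ T, ∀ a, G.Adj t a → a ∈ A
  inj : Set.InjOn f (T ∪ A : Finset V)
  fT : ∀ t ∈ T, f t ∉ D
  fA : ∀ a ∈ A, f a ∈ D
  blue : ∀ t ∈ T, ∀ a, G.Adj t a → ¬ H.Adj (f t) (f a)
  cnt : 2 * A.card ≤ 2 * T.card + 2 + EB G A

theorem seq_mem_Sv {G : SimpleGraph V} {x : V} : x ∈ Sv G ↔ dg G x = 2 := by
  rw [Sv, Finset.mem_filter, and_iff_right (Finset.mem_univ _)]

theorem seq_mem_Bv {G : SimpleGraph V} {x : V} : x ∈ Bv G ↔ 3 ≤ dg G x := by
  rw [Bv, Finset.mem_filter, and_iff_right (Finset.mem_univ _)]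

theorem seq_sv_bv {G : SimpleGraph V} {x y : V} (hx : x ∈ Sv G) (hy : y ∈ Bv G) : x ≠ y := by
  rintro rfl
  have h1 := seq_mem_Sv.1 hx
  have h2 := seq_mem_Bv.1 hy
  omega

omit [Fintype V] in
theorem seq_EB_mono {G : SimpleGraph V} {A B : Finset V} (h : A ⊆ B) : EB G A ≤ EB G B :=
  Finset.card_le_card (Finset.filter_subset_filter _ (Finset.product_subset_product h h))

omit [Fintype V] in
theorem seq_EB_insert {G : SimpleGraph V} {A : Finset V} {a x : V} (ha : a ∈ A) (hx : x ∉ A)
    (h : G.Adj a x) : EB G A + 2 ≤ EB G (insert x A) := by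
  have hax : a ≠ x := fun he => hx (he ▸ ha)
  have h1 : insert (a, x) (insert (x, a) ((A ×ˢ A).filter fun p => G.Adj p.1 p.2)) ⊆
      ((insert x A ×ˢ insert x A).filter fun p => G.Adj p.1 p.2) := by
    intro p hp
    rcases Finset.mem_insert.1 hp with rfl | hp
    · exact Finset.mem_filter.2 ⟨Finset.mem_product.2 ⟨Finset.mem_insert_of_mem ha,
        Finset.mem_insert_self _ _⟩, h⟩
    rcases Finset.mem_insert.1 hp with rfl | hp
    · exact Finset.mem_filter.2 ⟨Finset.mem_product.2 ⟨Finset.mem_insert_self _ _,
        Finset.mem_insert_of_mem ha⟩, h.symm⟩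
    have h2 := Finset.mem_filter.1 hp
    have h3 := Finset.mem_product.1 h2.1
    exact Finset.mem_filter.2 ⟨Finset.mem_product.2 ⟨Finset.mem_insert_of_mem h3.1,
      Finset.mem_insert_of_mem h3.2⟩, h2.2⟩
  have h2 : (x, a) ∉ ((A ×ˢ A).filter fun p => G.Adj p.1 p.2) := fun hp =>
    hx (Finset.mem_product.1 (Finset.mem_filter.1 hp).1).1
  have h3 : (a, x) ∉ insert (x, a) ((A ×ˢ A).filter fun p => G.Adj p.1 p.2) := by
    intro hp
    rcases Finset.mem_insert.1 hp with hp | hp
    · exact hax (congrArg Prod.fst hp)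
    · exact hx (Finset.mem_product.1 (Finset.mem_filter.1 hp).1).2
  have h4 := Finset.card_le_card h1
  rw [Finset.card_insert_of_notMem h3, Finset.card_insert_of_notMem h2] at h4
  exact h4

/-- One step. If some `v ∈ S - T` has exactly one neighbour `a` in `A`, the other one is `x`: place
`x` at `w ∈ D - f A` and `v` at `y ∉ D`, `y ∉ f T`, blue to `f a` and `w`; this fails only if
`Gam = D - f A`, `Z = Dᶜ - f T` satisfy the hypothesis of `gam_card` (with `u = f a`). If there is
no such `v`: if `A ≠ B`, there is an edge from `a ∈ A` to `x ∈ B - A` (`G` connected: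
look at `A ∪ {v ∈ S : its neighbours are in A}`): place `x` anywhere in `D - f A`. -/
theorem step (G : SimpleGraph V) (H : SimpleGraph W) (hG : Irr G) (hH : TF H) (D : Finset W)
    (hD : Ind H D) (hα : ∀ I, Ind H I → I.card ≤ D.card) (hb : (Bv G).card ≤ D.card) (m : ℕ)
    (hm : 2 * m + 2 + EB G (Bv G) ≤ 2 * (Bv G).card)
    (hnum : 4 * D.card + 4 * m + EB G (Bv G) ≤ 2 * Fintype.card W)
    (A T : Finset V) (f : V → W) (hS : State G H D A T f) (hTm : T.card < m) (hAne : A.Nonempty) :
    ∃ (A' T' : Finset V) (f' : V → W), State G H D A' T' f' ∧ A'.Nonempty ∧ T'.card ≤ m ∧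
      A.card + T.card < A'.card + T'.card := by
  have hEB : EB G A ≤ EB G (Bv G) := seq_EB_mono hS.hA
  have hcnt := hS.cnt
  -- `A ≠ B`
  have hAB : A ≠ Bv G := by
    intro h
    rw [h] at hcnt
    omega
  have hAlt : A.card < (Bv G).card := Finset.card_lt_card (Finset.ssubset_iff_subset_ne.2 ⟨hS.hA, hAB⟩)
  have hfree : (D \ A.image f).Nonempty := by
    rw [← Finset.card_pos]
    have h1 := Finset.le_card_sdiff (A.image f) D
    have h2 : (A.image f).card ≤ A.card := Finset.card_image_le
    omega
  by_cases hv : ∃ v ∈ Sv G, v ∉ T ∧ ∃ a ∈ A, ∃ x, x ∉ A ∧ G.Adj v a ∧ G.Adj v x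
  · obtain ⟨v, hvS, hvT, a, haA, x, hxA, hva, hvx⟩ := hv
    obtain ⟨p, q, hpq, hpB, hqB, hnb⟩ := sv_nb G hG v hvS
    have hax : a ≠ x := fun he => hxA (he ▸ haA)
    have hxB : x ∈ Bv G := by
      rcases (hnb x).1 hvx with rfl | rfl
      · exact hpB
      · exact hqB
    have hnb' : ∀ y, G.Adj v y → y = a ∨ y = x := by
      intro y hy
      rcases (hnb y).1 hy with rfl | rfl <;> rcases (hnb a).1 hva with rfl | rfl <;>
        rcases (hnb x).1 hvx with rfl | rfl
      all_goals first
        | exact Or.inl rfl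
        | exact Or.inr rfl
        | exact absurd rfl hax
    -- a place for `x` and `v`
    have hplace : ∃ w ∈ D \ A.image f, ∃ y, y ∉ D ∧ y ∉ T.image f ∧ ¬ H.Adj (f a) y ∧
        ¬ H.Adj w y := by
      by_contra hcon
      push Not at hcon
      have hg := gam_card H hH D.card hα D (Finset.univ \ (D ∪ T.image f)) hD (by
          rw [Finset.disjoint_left]
          intro z hz hz'
          exact (Finset.mem_sdiff.1 hz').2 (Finset.mem_union_left _ hz)) (f a) (D \ A.image f)
        Finset.sdiff_subset hfree (by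
          intro w hw z hz
          by_contra h
          rw [not_or] at h
          have hz' := (Finset.mem_sdiff.1 hz).2
          rw [Finset.mem_union, not_or] at hz'
          exact hcon w hw z hz'.1 hz'.2 h.1 |> fun h3 => h.2 h3)
      have h1 := Finset.le_card_sdiff (A.image f) D
      have h2 : (A.image f).card ≤ A.card := Finset.card_image_le
      have h3 := Finset.le_card_sdiff (D ∪ T.image f) (Finset.univ : Finset W)
      have h4 : (T.image f).card ≤ T.card := Finset.card_image_le
      have h5 := Finset.card_union_le D (T.image f)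
      rw [Finset.card_univ] at h3
      omega
    obtain ⟨w, hw, y, hyD, hyT, hay, hwy⟩ := hplace
    have hwD : w ∈ D := (Finset.mem_sdiff.1 hw).1
    have hwA : ∀ c ∈ A, f c ≠ w := fun c hc he => (Finset.mem_sdiff.1 hw).2
      (he ▸ Finset.mem_image_of_mem f hc)
    have hyT' : ∀ c ∈ T, f c ≠ y := fun c hc he => hyT (he ▸ Finset.mem_image_of_mem f hc)
    have hvx' : v ≠ x := seq_sv_bv hvS hxB
    have hvA : v ∉ A := fun h => seq_sv_bv hvS (hS.hA h) rfl
    have hxT : x ∉ T := fun h => seq_sv_bv (hS.hT h) hxB rfl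
    set f' : V → W := Function.update (Function.update f x w) v y with hf'
    have fv : f' v = y := by rw [hf', Function.update_self]
    have fx : f' x = w := by rw [hf', Function.update_of_ne hvx'.symm, Function.update_self]
    have fo : ∀ c, c ≠ v → c ≠ x → f' c = f c := by
      intro c h1 h2
      rw [hf', Function.update_of_ne h1, Function.update_of_ne h2]
    have foA : ∀ c ∈ A, f' c = f c := fun c hc => fo c (fun h => hvA (h ▸ hc)) fun h => hxA (h ▸ hc)
    have foT : ∀ c ∈ T, f' c = f c := fun c hc => fo c (fun h => hvT (h ▸ hc)) fun h => hxT (h ▸ hc)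
    refine ⟨insert x A, insert v T, f', ⟨?_, ?_, ?_, ?_, ?_, ?_, ?_, ?_⟩, ⟨x,
      Finset.mem_insert_self _ _⟩, ?_, ?_⟩
    · exact Finset.insert_subset hxB hS.hA
    · exact Finset.insert_subset hvS hS.hT
    · intro t ht c hc
      rcases Finset.mem_insert.1 ht with rfl | ht
      · rcases hnb' c hc with rfl | rfl
        · exact Finset.mem_insert_of_mem haA
        · exact Finset.mem_insert_self _ _
      · exact Finset.mem_insert_of_mem (hS.nb t ht c hc)
    · -- injectivity
      have hval : ∀ c, c ∈ T ∪ A → f' c = f c := by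
        intro c hc
        rcases Finset.mem_union.1 hc with hc | hc
        · exact foT c hc
        · exact foA c hc
      have hy' : ∀ c, c ∈ T ∪ A → f' c ≠ y := by
        intro c hc
        rw [hval c hc]
        rcases Finset.mem_union.1 hc with hc | hc
        · exact hyT' c hc
        · exact fun he => hyD (he ▸ hS.fA c hc)
      have hw' : ∀ c, c ∈ T ∪ A → f' c ≠ w := by
        intro c hc
        rw [hval c hc]
        rcases Finset.mem_union.1 hc with hc | hc
        · exact fun he => hS.fT c hc (he ▸ hwD)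
        · exact hwA c hc
      have hyw : y ≠ w := fun he => hyD (he ▸ hwD)
      have hcases : ∀ c, c ∈ insert v T ∪ insert x A → c = v ∨ c = x ∨ c ∈ T ∪ A := by
        intro c hc
        rcases Finset.mem_union.1 hc with hc | hc
        · rcases Finset.mem_insert.1 hc with rfl | hc
          · exact Or.inl rfl
          · exact Or.inr (Or.inr (Finset.mem_union_left _ hc))
        · rcases Finset.mem_insert.1 hc with rfl | hc
          · exact Or.inr (Or.inl rfl)
          · exact Or.inr (Or.inr (Finset.mem_union_right _ hc))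
      intro c hc c' hc' he
      rcases hcases c hc with rfl | rfl | h1 <;> rcases hcases c' hc' with rfl | rfl | h2
      · rfl
      · rw [fv, fx] at he
        exact absurd he hyw
      · rw [fv] at he
        exact absurd he.symm (hy' c' h2)
      · rw [fv, fx] at he
        exact absurd he.symm hyw
      · rfl
      · rw [fx] at he
        exact absurd he.symm (hw' c' h2)
      · rw [fv] at he
        exact absurd he (hy' c h1)
      · rw [fx] at he
        exact absurd he (hw' c h1)
      · rw [hval c h1, hval c' h2] at he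
        exact hS.inj h1 h2 he
    · intro t ht
      rcases Finset.mem_insert.1 ht with rfl | ht
      · rw [fv]
        exact hyD
      · rw [foT t ht]
        exact hS.fT t ht
    · intro c hc
      rcases Finset.mem_insert.1 hc with rfl | hc
      · rw [fx]
        exact hwD
      · rw [foA c hc]
        exact hS.fA c hc
    · intro t ht c hc
      rcases Finset.mem_insert.1 ht with rfl | ht
      · rw [fv]
        rcases hnb' c hc with rfl | rfl
        · rw [foA _ haA]
          exact fun h => hay h.symm
        · rw [fx]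
          exact fun h => hwy h.symm
      · rw [foT t ht, foA c (hS.nb t ht c hc)]
        exact hS.blue t ht c hc
    · rw [Finset.card_insert_of_notMem hxA, Finset.card_insert_of_notMem hvT]
      have := seq_EB_mono (G := G) (Finset.subset_insert x A)
      omega
    · rw [Finset.card_insert_of_notMem hvT]
      exact hTm
    · rw [Finset.card_insert_of_notMem hxA, Finset.card_insert_of_notMem hvT]
      omega
  · -- an edge inside `B`
    push Not at hv
    have hedge : ∃ a ∈ A, ∃ x ∈ Bv G, x ∉ A ∧ G.Adj a x := by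
      by_contra hcon
      push Not at hcon
      obtain ⟨a₀, ha₀⟩ := hAne
      obtain ⟨x₀, hx₀B, hx₀A⟩ : ∃ x ∈ Bv G, x ∉ A := by
        by_contra h
        push Not at h
        exact hAB (Finset.Subset.antisymm hS.hA h)
      -- the closed set `A ∪ {v ∈ S : all neighbours in A}`
      have hclosed : ∀ c c', G.Adj c c' → (c ∈ A ∨ (c ∈ Sv G ∧ ∀ z, G.Adj c z → z ∈ A)) →
          (c' ∈ A ∨ (c' ∈ Sv G ∧ ∀ z, G.Adj c' z → z ∈ A)) := by
        intro c c' hcc' hc
        rcases hc with hc | ⟨_, hc⟩
        · by_cases hc'A : c' ∈ A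
          · exact Or.inl hc'A
          · right
            have hc'B : c' ∉ Bv G := fun h => hcon c hc c' h hc'A hcc'
            have hc'S : c' ∈ Sv G := by
              rw [seq_mem_Sv]
              rw [seq_mem_Bv] at hc'B
              have := hG.two c'
              omega
            refine ⟨hc'S, fun z hz => ?_⟩
            by_contra hzA
            by_cases hc'T : c' ∈ T
            · exact hzA (hS.nb c' hc'T z hz)
            · exact hv c' hc'S hc'T c hc z hzA hcc'.symm hz
        · exact Or.inl (hc c' hcc')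
      have hreach : ∀ c c', G.Reachable c c' → (c ∈ A ∨ (c ∈ Sv G ∧ ∀ z, G.Adj c z → z ∈ A)) →
          (c' ∈ A ∨ (c' ∈ Sv G ∧ ∀ z, G.Adj c' z → z ∈ A)) := by
        intro c c' ⟨wk⟩
        induction wk with
        | nil => exact id
        | cons hadj _ ih => exact fun h => ih (hclosed _ _ hadj h)
      rcases hreach a₀ x₀ (hG.conn.preconnected a₀ x₀) (Or.inl ha₀) with h | ⟨h, _⟩
      · exact hx₀A h
      · exact seq_sv_bv h hx₀B rfl
    obtain ⟨a, haA, x, hxB, hxA, hax⟩ := hedge
    obtain ⟨w, hw⟩ := hfree
    have hwD : w ∈ D := (Finset.mem_sdiff.1 hw).1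
    have hwA : ∀ c ∈ A, f c ≠ w := fun c hc he => (Finset.mem_sdiff.1 hw).2
      (he ▸ Finset.mem_image_of_mem f hc)
    have hxT : x ∉ T := fun h => seq_sv_bv (hS.hT h) hxB rfl
    set f' : V → W := Function.update f x w with hf'
    have fx : f' x = w := by rw [hf', Function.update_self]
    have fo : ∀ c, c ≠ x → f' c = f c := by
      intro c h2
      rw [hf', Function.update_of_ne h2]
    have foA : ∀ c ∈ A, f' c = f c := fun c hc => fo c fun h => hxA (h ▸ hc)
    have foT : ∀ c ∈ T, f' c = f c := fun c hc => fo c fun h => hxT (h ▸ hc)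
    refine ⟨insert x A, T, f', ⟨?_, hS.hT, ?_, ?_, ?_, ?_, ?_, ?_⟩, ⟨x,
      Finset.mem_insert_self _ _⟩, hTm.le, ?_⟩
    · exact Finset.insert_subset hxB hS.hA
    · exact fun t ht c hc => Finset.mem_insert_of_mem (hS.nb t ht c hc)
    · have hval : ∀ c, c ∈ T ∪ A → f' c = f c := by
        intro c hc
        rcases Finset.mem_union.1 hc with hc | hc
        · exact foT c hc
        · exact foA c hc
      have hw' : ∀ c, c ∈ T ∪ A → f' c ≠ w := by
        intro c hc
        rw [hval c hc]
        rcases Finset.mem_union.1 hc with hc | hc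
        · exact fun he => hS.fT c hc (he ▸ hwD)
        · exact hwA c hc
      have hcases : ∀ c, c ∈ T ∪ insert x A → c = x ∨ c ∈ T ∪ A := by
        intro c hc
        rcases Finset.mem_union.1 hc with hc | hc
        · exact Or.inr (Finset.mem_union_left _ hc)
        · rcases Finset.mem_insert.1 hc with rfl | hc
          · exact Or.inl rfl
          · exact Or.inr (Finset.mem_union_right _ hc)
      intro c hc c' hc' he
      rcases hcases c hc with rfl | h1 <;> rcases hcases c' hc' with rfl | h2
      · rfl
      · rw [fx] at he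
        exact absurd he.symm (hw' c' h2)
      · rw [fx] at he
        exact absurd he (hw' c h1)
      · rw [hval c h1, hval c' h2] at he
        exact hS.inj h1 h2 he
    · intro t ht
      rw [foT t ht]
      exact hS.fT t ht
    · intro c hc
      rcases Finset.mem_insert.1 hc with rfl | hc
      · rw [fx]
        exact hwD
      · rw [foA c hc]
        exact hS.fA c hc
    · intro t ht c hc
      rw [foT t ht, foA c (hS.nb t ht c hc)]
      exact hS.blue t ht c hc
    · rw [Finset.card_insert_of_notMem hxA]
      have := seq_EB_insert (G := G) haA hxA hax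
      omega
    · rw [Finset.card_insert_of_notMem hxA]
      omega

/-- Case II.a. -/
theorem caseIIa (G : SimpleGraph V) (H : SimpleGraph W) (hG : Irr G) (hH : TF H) (D : Finset W)
    (hD : Ind H D) (hα : ∀ I, Ind H I → I.card ≤ D.card) (hb : (Bv G).card ≤ D.card)
    (hB : (Bv G).Nonempty) (m : ℕ) (hmd : Fintype.card V = m + D.card)
    (hm : 2 * m + 2 + EB G (Bv G) ≤ 2 * (Bv G).card)
    (hnum : 4 * D.card + 4 * m + EB G (Bv G) ≤ 2 * Fintype.card W) : Emb G H := by
  have key : ∀ k : ℕ, ∀ (A T : Finset V) (f : V → W), State G H D A T f → A.Nonempty → T.card ≤ m →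
      2 * Fintype.card V ≤ A.card + T.card + k → Emb G H := by
    intro k
    induction k with
    | zero =>
      intro A T f hS hA hT hk
      rcases hT.lt_or_eq with h | h
      · obtain ⟨A', T', f', _, _, _, h4⟩ := step G H hG hH D hD hα hb m hm hnum A T f hS h hA
        have h5 := Finset.card_le_univ A'
        have h6 := Finset.card_le_univ T'
        omega
      · exact complete G H D hD T A f
          (fun t ht t' ht' h1 => hG.ind t t' h1 (seq_mem_Sv.1 (hS.hT ht)) (seq_mem_Sv.1 (hS.hT ht')))
          (Finset.disjoint_left.2 fun t ht ht' => seq_sv_bv (hS.hT ht) (hS.hA ht') rfl)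
          hS.nb hS.inj hS.fT hS.fA hS.blue (by omega)
    | succ k ih =>
      intro A T f hS hA hT hk
      rcases hT.lt_or_eq with h | h
      · obtain ⟨A', T', f', h1, h2, h3, h4⟩ := step G H hG hH D hD hα hb m hm hnum A T f hS h hA
        exact ih A' T' f' h1 h2 h3 (by omega)
      · exact complete G H D hD T A f
          (fun t ht t' ht' h1 => hG.ind t t' h1 (seq_mem_Sv.1 (hS.hT ht)) (seq_mem_Sv.1 (hS.hT ht')))
          (Finset.disjoint_left.2 fun t ht ht' => seq_sv_bv (hS.hT ht) (hS.hA ht') rfl)
          hS.nb hS.inj hS.fT hS.fA hS.blue (by omega)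
  obtain ⟨x₀, hx₀⟩ := hB
  obtain ⟨w₀, hw₀⟩ : D.Nonempty := by
    rw [← Finset.card_pos]
    have := Finset.card_pos.2 ⟨x₀, hx₀⟩
    omega
  refine key (2 * Fintype.card V) {x₀} ∅ (fun _ => w₀) ⟨?_, Finset.empty_subset _, ?_, ?_, ?_, ?_, ?_,
    ?_⟩ (Finset.singleton_nonempty _) (by simp) (by omega)
  · exact Finset.singleton_subset_iff.2 hx₀
  · intro t ht
    exact absurd ht (Finset.notMem_empty t)
  · intro c hc c' hc' _
    rw [Finset.empty_union, Finset.coe_singleton, Set.mem_singleton_iff] at hc hc'
    rw [hc, hc']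
  · intro t ht
    exact absurd ht (Finset.notMem_empty t)
  · intro a _
    exact hw₀
  · intro t ht
    exact absurd ht (Finset.notMem_empty t)
  · rw [Finset.card_singleton, Finset.card_empty]
    omega

end Pool.Agent.MP_fb5c70_coL
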