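import Mathlib

/-!
# The numerical inequality of case II.b
-/

set_option autoImplicit false

namespace Pool.Agent.MP_fb5c70_coL

theorem num_end1 (κ p q r : ℤ) (hκ : 1 ≤ κ) (hp : 0 ≤ p) (hq : 0 ≤ q) (hr : 0 ≤ r)
    (hd : 5 * κ + 2 ≤ 2 * (3 * κ - q - r)) :
    (3 * κ - q) * (3 * κ - q - r) * ((10 * κ + 1 + p) - 2 * (3 * κ - q - r)) <
      ((10 * κ + 1 + p) - (3 * κ - q - r)) * ((3 * κ - q - r) - 1) *
        ((10 * κ + 1 + p) - 2 * (3 * κ - q - r) - (2 * κ - q) + 1) := by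
  have hκ0 : 0 ≤ κ := by omega
  have hdd : 0 ≤ 2 * (3 * κ - q - r) - 5 * κ - 2 := by omega
  -- `a`, `c`, `g`
  obtain ⟨a, ha⟩ : ∃ a, a = p + q + r := ⟨_, rfl⟩
  obtain ⟨c, hc⟩ : ∃ c, c = p + 3 * q + 2 * r := ⟨_, rfl⟩
  obtain ⟨g, hg⟩ : ∃ g, g = p + 2 * q + 2 * r := ⟨_, rfl⟩
  have ha0 : 0 ≤ a := by omega
  have hc0 : 0 ≤ c := by omega
  have hg0 : 0 ≤ g := by omega
  have hdiff : 0 ≤ 2 * κ ^ 2 + 13 * κ + 2 + κ * (6 * p + 21 * q + 10 * r) + c + 2 * a + a * c + q
      + q * g := by positivity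
  have hrest : 0 < 10 * κ ^ 3 + 41 * κ ^ 2 + 4 * κ + κ ^ 2 * (30 * p + 105 * q + 50 * r)
      + κ * (9 * p + 21 * q + 8 * r) + 5 * κ * (a * c + q + q * g) + 2 * (q + q * g) := by
    have : 0 < κ := by omega
    positivity
  have key : 2 * (((10 * κ + 1 + p) - (3 * κ - q - r)) * ((3 * κ - q - r) - 1) *
        ((10 * κ + 1 + p) - 2 * (3 * κ - q - r) - (2 * κ - q) + 1)
      - (3 * κ - q) * (3 * κ - q - r) * ((10 * κ + 1 + p) - 2 * (3 * κ - q - r)))
      = (2 * (3 * κ - q - r) - 5 * κ - 2) * (2 * κ ^ 2 + 13 * κ + 2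
        + κ * (6 * p + 21 * q + 10 * r) + c + 2 * a + a * c + q + q * g)
      + (10 * κ ^ 3 + 41 * κ ^ 2 + 4 * κ + κ ^ 2 * (30 * p + 105 * q + 50 * r)
      + κ * (9 * p + 21 * q + 8 * r) + 5 * κ * (a * c + q + q * g) + 2 * (q + q * g)) := by
    subst ha
    subst hc
    subst hg
    ring
  have := mul_nonneg hdd hdiff
  linarith

/-- `M = N - d`, `m = b + s - d`. By concavity in `l` only the ends `l = M - 2 d + 1` (then the
inequality follows from `(N - d) (d - 1) (N - 2 d - b + 1) > s d (N - 2 d)`) and `l = m` (then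
`2 d ^ 2 (N - 2 d) < (N - d) (d - 1) (N + 3 - 2 d)`) matter. -/
theorem num (N b s e κ d l : ℤ) (h1 : s + e = b + κ) (h2 : b ≤ 2 * κ) (h3 : 0 ≤ e) (h4 : 0 ≤ b)
    (h5 : 10 * κ + 1 ≤ N) (h6 : N + 1 ≤ 2 * d + (b + s)) (h7 : d ≤ b + κ) (h8 : 0 ≤ s)
    (h9 : d < b + s) (h10 : N - 3 * d + 1 ≤ l) (h11 : l ≤ b + s - d) (h12 : 1 ≤ l) :
    s * d ^ 2 * (N - 2 * d) <
      (N - d) * (d - 1) * (d - b + l) * (N - 2 * d - l + 1) := by
  have hκ : 2 ≤ κ := by omega
  have hd : 5 * κ + 2 ≤ 2 * d := by omega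
  have hd4 : N + 3 ≤ 4 * d := by omega
  have hd3 : d ≤ 3 * κ := by omega
  have hs : 0 < s := by omega
  have hdpos : 0 < d := by omega
  -- end 1
  have e1 : s * d ^ 2 * (N - 2 * d) < (N - d) * (d - 1) * (d * (N - 2 * d - b + 1)) := by
    have h := num_end1 κ (N - 10 * κ - 1) (2 * κ - b) (b + κ - d) (by omega) (by omega)
      (by omega) (by omega) (by omega)
    rw [show 10 * κ + 1 + (N - 10 * κ - 1) = N by ring,
      show 3 * κ - (2 * κ - b) - (b + κ - d) = d by ring,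
      show 3 * κ - (2 * κ - b) = b + κ by ring, show 2 * κ - (2 * κ - b) = b by ring] at h
    have h' : s * d * (N - 2 * d) ≤ (b + κ) * d * (N - 2 * d) := by
      apply mul_le_mul_of_nonneg_right _ (by omega)
      exact mul_le_mul_of_nonneg_right (by omega) hdpos.le
    have h'' := mul_lt_mul_of_pos_left (lt_of_le_of_lt h' h) hdpos
    calc s * d ^ 2 * (N - 2 * d) = d * (s * d * (N - 2 * d)) := by ring
      _ < _ := h''
      _ = _ := by ring
  -- end 2
  have e2 : s * d ^ 2 * (N - 2 * d) < (N - d) * (d - 1) * (s * (N - d - (b + s) + 1)) := by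
    have h : 2 * (d ^ 2 * (N - 2 * d)) < (N - d) * (d - 1) * (N + 3 - 2 * d) := by
      have k : (N - d) * (d - 1) * (N + 3 - 2 * d) - 2 * (d ^ 2 * (N - 2 * d))
          = d * (N - 2 * d) * (N - 3 * d) + (N - d) * (5 * d - N - 3) := by ring
      have k1 : 0 ≤ d * (N - 2 * d) * (N - 3 * d) :=
        mul_nonneg (mul_nonneg hdpos.le (by omega)) (by omega)
      have k2 : 0 < (N - d) * (5 * d - N - 3) := mul_pos (by omega) (by omega)
      linarith
    have h' : (N - d) * (d - 1) * (N + 3 - 2 * d) ≤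
        (N - d) * (d - 1) * (2 * (N - d - (b + s) + 1)) :=
      mul_le_mul_of_nonneg_left (by omega) (mul_nonneg (by omega) (by omega))
    have h'' : d ^ 2 * (N - 2 * d) < (N - d) * (d - 1) * (N - d - (b + s) + 1) := by
      have : (N - d) * (d - 1) * (2 * (N - d - (b + s) + 1))
          = 2 * ((N - d) * (d - 1) * (N - d - (b + s) + 1)) := by ring
      linarith
    have h''' := mul_lt_mul_of_pos_left h'' hs
    calc s * d ^ 2 * (N - 2 * d) = s * (d ^ 2 * (N - 2 * d)) := by ring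
      _ < _ := h'''
      _ = _ := by ring
  have hpos : 0 ≤ (N - d) * (d - 1) := mul_nonneg (by omega) (by omega)
  by_cases hK : l + (N - 3 * d + 1) ≤ N - 3 * d + b + 1
  · have h : d * (N - 2 * d - b + 1) ≤ (d - b + l) * (N - 2 * d - l + 1) := by
      have k : (d - b + l) * (N - 2 * d - l + 1) - d * (N - 2 * d - b + 1)
          = (l - (N - 3 * d + 1)) * (N - 3 * d + b + 1 - (l + (N - 3 * d + 1))) := by ring
      have := mul_nonneg (show 0 ≤ l - (N - 3 * d + 1) by omega)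
        (show 0 ≤ N - 3 * d + b + 1 - (l + (N - 3 * d + 1)) by omega)
      linarith
    calc _ < _ := e1
      _ ≤ (N - d) * (d - 1) * ((d - b + l) * (N - 2 * d - l + 1)) :=
        mul_le_mul_of_nonneg_left h hpos
      _ = _ := by ring
  · have h : s * (N - d - (b + s) + 1) ≤ (d - b + l) * (N - 2 * d - l + 1) := by
      have k : (d - b + l) * (N - 2 * d - l + 1) - s * (N - d - (b + s) + 1)
          = (b + s - d - l) * (l + (b + s - d) - (N - 3 * d + b + 1)) := by ring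
      have := mul_nonneg (show 0 ≤ b + s - d - l by omega)
        (show 0 ≤ l + (b + s - d) - (N - 3 * d + b + 1) by omega)
      linarith
    calc _ < _ := e2
      _ ≤ (N - d) * (d - 1) * ((d - b + l) * (N - 2 * d - l + 1)) :=
        mul_le_mul_of_nonneg_left h hpos
      _ = _ := by ring

end Pool.Agent.MP_fb5c70_coL
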