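import Pool.Agent.Lib.MP_fb5c70_coL.Comp
import Pool.Agent.Lib.MP_fb5c70_coL.Cnt
import Pool.Agent.Lib.MP_fb5c70_coL.Avg
import Pool.Agent.Lib.MP_fb5c70_coL.Num

/-!
# Case II.b: averaging over placements
-/

set_option autoImplicit false

noncomputable section

open Classical

namespace Pool.Agent.MP_fb5c70_coL

variable {V W : Type} [Fintype V] [Fintype W]

/-- Elementary form of the counting step. -/
theorem Sta_arith (d M s S I : ℤ) (hd : 0 < d) (hI : s * I ≤ d * (d - 1) * S)
    (hc : d ^ 4 - d ^ 2 * M ≤ M * I) (hM : 0 ≤ M) (hs : 0 ≤ s) :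
    M * (d - 1) * (s * d - S) ≤ s * d ^ 2 * (M - d) := by
  have h1 : s * (d ^ 4 - d ^ 2 * M) ≤ s * (M * I) := mul_le_mul_of_nonneg_left hc hs
  have h2 : M * (s * I) ≤ M * (d * (d - 1) * S) := mul_le_mul_of_nonneg_left hI hM
  have h3 : d * (M * (d - 1) * (s * d - S)) ≤ d * (s * d ^ 2 * (M - d)) := by
    nlinarith [h1, h2]
  exact le_of_mul_le_mul_left h3 hd

/-- An injection of a small set into a large one, as a total function. -/
theorem Sta_inj (B : Finset V) (D : Finset W) (h : B.card ≤ D.card) (hD : D.Nonempty) :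
    ∃ φ : V → {x // x ∈ D}, Set.InjOn φ (B : Finset V) := by
  obtain ⟨w0, hw0⟩ := hD
  obtain ⟨e⟩ : Nonempty ({x // x ∈ B} ↪ {x // x ∈ D}) := by
    apply Function.Embedding.nonempty_of_card_le
    rw [Fintype.card_coe, Fintype.card_coe]
    exact h
  refine ⟨fun v => if hv : v ∈ B then e ⟨v, hv⟩ else ⟨w0, hw0⟩, ?_⟩
  intro x hx y hy hxy
  rw [Finset.mem_coe] at hx hy
  simp only [hx, hy, dif_pos] at hxy
  have h1 := e.injective hxy
  exact congrArg Subtype.val h1

/-- Case II.b. `Y = Dᶜ`, `M = |W| - d`; `R u ⊆ Y` of size exactly `d` contains the red neighbours of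
`u ∈ D` in `Y`. By `avg_perm` and `cauchy` there is an injection `φ : B → D` with
`M (d - 1) ∑_{v ∈ S} (d - |R (φ a_v) ∩ R (φ b_v)|) ≤ s d² (M - d)`. The set
`c v = Y - R (φ a_v) - R (φ b_v)` has size `M - 2 d + |R (φ a_v) ∩ R (φ b_v)|`. `hall_def` with
`m = |V| - d`, `num`, and `complete` with `A = B`. -/
theorem caseIIb (G : SimpleGraph V) (H : SimpleGraph W) (hG : Irr G) (hH : TF H) (e κ κ' : ℕ)
    (h1 : (Sv G).card + e = (Bv G).card + κ') (h2 : (Bv G).card ≤ 2 * κ') (hκ : κ' ≤ κ)
    (hV : Fintype.card V = (Bv G).card + (Sv G).card)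
    (hN : 10 * κ + 1 ≤ Fintype.card W) (D : Finset W)
    (hD : Ind H D) (hα : ∀ I, Ind H I → I.card ≤ D.card) (hb : (Bv G).card ≤ D.card)
    (hdV : D.card < Fintype.card V) (hII : Fintype.card W + 1 ≤ 2 * D.card + Fintype.card V)
    (hm : D.card ≤ (Bv G).card + κ') : Emb G H := by
  have hNd : 3 * D.card < Fintype.card W := by omega
  have hcompl : (Dᶜ : Finset W).card = Fintype.card W - D.card := Finset.card_compl D
  have hnbD : ∀ w, (nb H w).card ≤ D.card := fun w => hα _ (nb_ind hH w)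
  -- the sets `R u`
  have hR : ∀ u : {x // x ∈ D}, ∃ R : Finset W, nb H u.1 ⊆ R ∧ R ⊆ Dᶜ ∧ R.card = D.card := by
    intro u
    have hsub : nb H u.1 ⊆ Dᶜ := by
      intro w hw
      rw [Finset.mem_compl]
      intro hwD
      exact hD _ u.2 _ hwD (mem_nb.1 hw)
    exact Finset.exists_subsuperset_card_eq hsub (hnbD u.1) (by rw [hcompl]; omega)
  choose R hR1 hR2 hR3 using hR
  -- the neighbours of the vertices of degree two
  have hVne : Nonempty V := hG.conn.nonempty
  have hnb : ∀ v, v ∈ Sv G → ∃ a b, a ≠ b ∧ a ∈ Bv G ∧ b ∈ Bv G ∧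
      ∀ y, G.Adj v y ↔ y = a ∨ y = b := fun v hv => sv_nb G hG v hv
  choose! a b hab haB hbB hadj using hnb
  have hs1 : 0 < (Sv G).card := by omega
  obtain ⟨v1, hv1⟩ := Finset.card_pos.1 hs1
  have hDne : D.Nonempty := by
    rw [← Finset.card_pos]
    exact lt_of_lt_of_le (Finset.card_pos.2 ⟨a v1, haB v1 hv1⟩) hb
  obtain ⟨φ, hφ⟩ := Sta_inj (Bv G) D hb hDne
  obtain ⟨σ, hσ⟩ := avg_perm (fun u w : {x // x ∈ D} => ((R u ∩ R w).card : ℤ)) (Sv G)
    (fun v => φ (a v)) (fun v => φ (b v))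
    (fun v hv hx => hab v hv (hφ (haB v hv) (hbB v hv) hx))
  have hca := cauchy (ι := {x // x ∈ D}) (Dᶜ) R hR2 (by
    intro u
    rw [hR3, Fintype.card_coe])
  rw [Fintype.card_coe] at hσ hca
  have hMz : ((Dᶜ : Finset W).card : ℤ) = (Fintype.card W : ℤ) - D.card := by
    rw [hcompl, Nat.cast_sub (by omega)]
  set X : V → ℤ := fun v => ((R (σ (φ (a v))) ∩ R (σ (φ (b v)))).card : ℤ) with hX
  have hXd : ∀ v, X v ≤ D.card := by
    intro v
    have := Finset.card_le_card (Finset.inter_subset_left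
      (s₁ := R (σ (φ (a v)))) (s₂ := R (σ (φ (b v)))))
    rw [hR3] at this
    simp only [hX]
    exact_mod_cast this
  have hdpos : (0 : ℤ) < D.card := by exact_mod_cast Finset.card_pos.2 hDne
  have hmain := Sta_arith (D.card : ℤ) ((Dᶜ : Finset W).card : ℤ) ((Sv G).card : ℤ)
    (∑ v ∈ Sv G, X v) _ hdpos hσ hca (Int.natCast_nonneg _) (Int.natCast_nonneg _)
  have hsum : ((Sv G).card : ℤ) * D.card - ∑ v ∈ Sv G, X v = ∑ v ∈ Sv G, ((D.card : ℤ) - X v) := by
    rw [Finset.sum_sub_distrib, Finset.sum_const, nsmul_eq_mul]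
  rw [hsum, hMz] at hmain
  -- the sets `c v`
  set c : V → Finset W := fun v => Dᶜ \ (R (σ (φ (a v))) ∪ R (σ (φ (b v)))) with hc
  have hcc : ∀ v, ((c v).card : ℤ) = (Fintype.card W : ℤ) - 3 * D.card + X v := by
    intro v
    have hsub : R (σ (φ (a v))) ∪ R (σ (φ (b v))) ⊆ Dᶜ := Finset.union_subset (hR2 _) (hR2 _)
    have e1 := Finset.card_sdiff_add_card_eq_card hsub
    have e2 := Finset.card_union_add_card_inter (R (σ (φ (a v)))) (R (σ (φ (b v))))
    rw [hR3, hR3] at e2
    simp only [hc, hX]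
    rw [hcompl] at e1
    omega
  obtain ⟨T, g, hTS, hTc, hgi, hgc⟩ := hall_def (Sv G) c (Fintype.card V - D.card) (by omega)
    (by omega) (by
      intro l hl1 hl2
      by_contra hcon
      push Not at hcon
      set F := (Sv G).filter fun v => (c v).card < l with hF
      have hFs : F ⊆ Sv G := Finset.filter_subset _ _
      have hFX : ∀ v ∈ F, (Fintype.card W : ℤ) - 2 * D.card - l + 1 ≤ (D.card : ℤ) - X v := by
        intro v hv
        have h3 : (c v).card < l := (Finset.mem_filter.1 hv).2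
        have h4 := hcc v
        omega
      have hFne : F.Nonempty := by
        rw [← Finset.card_pos]
        omega
      have hl : (Fintype.card W : ℤ) - 3 * D.card + 1 ≤ l := by
        obtain ⟨v, hv⟩ := hFne
        have h5 := hFX v hv
        have h6 : (0 : ℤ) ≤ X v := by
          simp only [hX]
          exact Int.natCast_nonneg _
        linarith
      have hsumF : (F.card : ℤ) * ((Fintype.card W : ℤ) - 2 * D.card - l + 1) ≤
          ∑ v ∈ Sv G, ((D.card : ℤ) - X v) := by
        calc (F.card : ℤ) * ((Fintype.card W : ℤ) - 2 * D.card - l + 1)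
            = ∑ _v ∈ F, ((Fintype.card W : ℤ) - 2 * D.card - l + 1) := by
              rw [Finset.sum_const, nsmul_eq_mul]
          _ ≤ ∑ v ∈ F, ((D.card : ℤ) - X v) := Finset.sum_le_sum hFX
          _ ≤ ∑ v ∈ Sv G, ((D.card : ℤ) - X v) :=
              Finset.sum_le_sum_of_subset_of_nonneg hFs fun v _ _ => sub_nonneg.2 (hXd v)
      have hnum := num (Fintype.card W : ℤ) ((Bv G).card : ℤ) ((Sv G).card : ℤ) (e : ℤ) (κ' : ℤ)
        (D.card : ℤ) (l : ℤ) (by omega) (by omega) (by omega) (by omega) (by omega) (by omega)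
        (by omega) (by omega) (by omega) hl (by omega) (by omega)
      have hFc : (D.card : ℤ) - (Bv G).card + l ≤ F.card := by omega
      have hpos : (0 : ℤ) ≤ (Fintype.card W : ℤ) - 2 * D.card - l + 1 := by omega
      have h7 : ((D.card : ℤ) - (Bv G).card + l) *
          ((Fintype.card W : ℤ) - 2 * D.card - l + 1) ≤ ∑ v ∈ Sv G, ((D.card : ℤ) - X v) :=
        (mul_le_mul_of_nonneg_right hFc hpos).trans hsumF
      have h8 : (0 : ℤ) ≤ ((Fintype.card W : ℤ) - D.card) * ((D.card : ℤ) - 1) :=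
        mul_nonneg (by omega) (by omega)
      have h9 := mul_le_mul_of_nonneg_left h7 h8
      nlinarith [h9, hmain, hnum])
  -- the embedding
  have hdisj : ∀ v, v ∈ Sv G → v ∉ Bv G := by
    intro v hv hv'
    have h3 : dg G v = 2 := (Finset.mem_filter.1 hv).2
    have h4 : 3 ≤ dg G v := (Finset.mem_filter.1 hv').2
    omega
  have hgD : ∀ v ∈ T, g v ∉ D := by
    intro v hv
    have h3 := hgc v hv
    simp only [hc, Finset.mem_sdiff, Finset.mem_compl] at h3
    exact h3.1
  refine complete G H D hD T (Bv G) (fun v => if v ∈ T then g v else (σ (φ v)).1) ?_ ?_ ?_ ?_ ?_ ?_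
    ?_ (by omega)
  · intro t ht t' ht' hadj'
    exact hG.ind t t' hadj' (Finset.mem_filter.1 (hTS ht)).2 (Finset.mem_filter.1 (hTS ht')).2
  · rw [Finset.disjoint_left]
    intro v hv
    exact hdisj v (hTS hv)
  · intro t ht y hy
    rcases (hadj t (hTS ht) y).1 hy with rfl | rfl
    · exact haB t (hTS ht)
    · exact hbB t (hTS ht)
  · intro x hx y hy hxy
    rw [Finset.mem_coe, Finset.mem_union] at hx hy
    by_cases hxT : x ∈ T <;> by_cases hyT : y ∈ T
    · simp only [hxT, hyT, if_true] at hxy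
      exact hgi hxT hyT hxy
    · simp only [hxT, hyT, if_true, if_false] at hxy
      exact absurd (hxy ▸ (σ (φ y)).2) (hgD x hxT)
    · simp only [hxT, hyT, if_true, if_false] at hxy
      exact absurd (hxy.symm ▸ (σ (φ x)).2) (hgD y hyT)
    · simp only [hxT, hyT, if_false] at hxy
      have hxB : x ∈ Bv G := hx.resolve_left hxT
      have hyB : y ∈ Bv G := hy.resolve_left hyT
      exact hφ hxB hyB (σ.injective (Subtype.ext hxy))
  · intro t ht
    simp only [ht, if_true]
    exact hgD t ht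
  · intro v hv
    have hvT : v ∉ T := fun hx => hdisj v (hTS hx) hv
    simp only [hvT, if_false]
    exact (σ (φ v)).2
  · intro t ht y hy hred
    have h3 := hgc t ht
    simp only [hc, Finset.mem_sdiff, Finset.mem_compl, Finset.mem_union, not_or] at h3
    rcases (hadj t (hTS ht) y).1 hy with hya | hyb
    · have hyT : y ∉ T := fun hx => hdisj y (hTS hx) (hya ▸ haB t (hTS ht))
      simp only [ht, hyT, if_true, if_false] at hred
      apply h3.2.1
      rw [← hya]
      exact hR1 _ (mem_nb.2 hred.symm)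
    · have hyT : y ∉ T := fun hx => hdisj y (hTS hx) (hyb ▸ hbB t (hTS ht))
      simp only [ht, hyT, if_true, if_false] at hred
      apply h3.2.2
      rw [← hyb]
      exact hR1 _ (mem_nb.2 hred.symm)

end Pool.Agent.MP_fb5c70_coL
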