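import Pool.Agent.Lib.MP_fb5c70_coL.Red1
import Pool.Agent.Lib.MP_fb5c70_coL.Red2
import Pool.Agent.Lib.MP_fb5c70_coL.Red3
import Pool.Agent.Lib.MP_fb5c70_coL.CaseI
import Pool.Agent.Lib.MP_fb5c70_coL.Seq
import Pool.Agent.Lib.MP_fb5c70_coL.Sta

/-!
# The induction
-/

set_option autoImplicit false

noncomputable section

open Classical

namespace Pool.Agent.MP_fb5c70_coL

variable {V W : Type} [Fintype V] [Fintype W]

/-- A maximum independent set. -/
theorem exists_max (H : SimpleGraph W) :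
    ∃ D : Finset W, Ind H D ∧ ∀ I, Ind H I → I.card ≤ D.card := by
  obtain ⟨D, hD, hmax⟩ := Finset.exists_max_image
    ((Finset.univ : Finset (Finset W)).filter fun I => Ind H I) Finset.card
    ⟨∅, Finset.mem_filter.2 ⟨Finset.mem_univ _, fun a ha => absurd ha (Finset.notMem_empty a)⟩⟩
  exact ⟨D, (Finset.mem_filter.1 hD).2, fun I hI =>
    hmax I (Finset.mem_filter.2 ⟨Finset.mem_univ _, hI⟩)⟩

/-- Irreducible graphs. -/
theorem irr (G : SimpleGraph V) (H : SimpleGraph W) (hG : Irr G) (hH : TF H) (κ : ℕ)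
    (hκ : dsum G ≤ 2 * Fintype.card V + 2 * κ) (hN : 10 * κ + 1 ≤ Fintype.card W) : Emb G H := by
  obtain ⟨e, κ', hE, hd, hV, h1, h2, h3, _⟩ := counts G hG
  have hκ' : κ' ≤ κ := by omega
  obtain ⟨D, hD, hα⟩ := exists_max H
  by_cases c1 : Fintype.card V ≤ D.card
  · exact emb_of_ind G H hD c1
  by_cases c2 : 2 * D.card + Fintype.card V ≤ Fintype.card W
  · exact caseI G H hG hH κ hκ hN D hD hα c2
  have hb : (Bv G).card ≤ D.card := by omega
  by_cases c3 : 2 * (Fintype.card V - D.card) + 2 + 2 * e ≤ 2 * (Bv G).card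
  · refine caseIIa G H hG hH D hD hα hb (Finset.card_pos.1 h3) (Fintype.card V - D.card)
      (by omega) ?_ ?_
    · rw [hE]
      exact c3
    · rw [hE]
      omega
  · exact caseIIb G H hG hH e κ κ' h1 h2 hκ' hV hN D hD hα hb (by omega) (by omega) (by omega)

/-- In a connected graph with at least two vertices all degrees are positive. -/
theorem dg_pos (G : SimpleGraph V) (hG : G.Connected) (h : 2 ≤ Fintype.card V) (x : V) :
    1 ≤ dg G x := by
  obtain ⟨y, hy⟩ := Fintype.exists_ne_of_one_lt_card (by omega : 1 < Fintype.card V) x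
  obtain ⟨w⟩ := hG.preconnected x y
  cases w with
  | nil => exact absurd rfl hy
  | cons h _ => exact Finset.card_pos.2 ⟨_, mem_nb.2 h⟩

/-- The second neighbour of a vertex of degree two. -/
theorem second (G : SimpleGraph V) (u v : V) (h : G.Adj u v) (hu : dg G u = 2) :
    ∃ p, p ≠ v ∧ G.Adj u p ∧ ∀ y, G.Adj u y → y = v ∨ y = p := by
  obtain ⟨a, b, hab, hnb⟩ := Finset.card_eq_two.1 hu
  have hv : v ∈ nb G u := mem_nb.2 h
  have hall : ∀ y, G.Adj u y ↔ y = a ∨ y = b := fun y => by
    rw [← mem_nb, hnb, Finset.mem_insert, Finset.mem_singleton]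
  rw [hnb, Finset.mem_insert, Finset.mem_singleton] at hv
  rcases hv with rfl | rfl
  · exact ⟨b, hab.symm, (hall b).2 (Or.inr rfl), fun y hy => (hall y).1 hy⟩
  · exact ⟨a, hab, (hall a).2 (Or.inl rfl), fun y hy => ((hall y).1 hy).symm⟩

/-- The induction on the number of vertices. -/
theorem main (H : SimpleGraph W) (hH : TF H) (κ : ℕ) (hN : 10 * κ + 1 ≤ Fintype.card W)
    (h7 : 7 ≤ Fintype.card W) (n : ℕ) : ∀ (V : Type) (_ : Fintype V) (G : SimpleGraph V),
    Fintype.card V = n → G.Connected → dsum G ≤ 2 * Fintype.card V + 2 * κ →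
    2 * Fintype.card V ≤ Fintype.card W + 1 → Emb G H := by
  induction n using Nat.strong_induction_on with
  | _ n ih =>
    intro V _ G hn hG hd hV
    by_cases c0 : ∃ I, Ind H I ∧ Fintype.card V ≤ I.card
    · obtain ⟨I, hI, hc⟩ := c0
      exact emb_of_ind G H hI hc
    have hα : ∀ I, Ind H I → I.card + 1 ≤ Fintype.card V := by
      intro I hI
      by_contra hcon
      exact c0 ⟨I, hI, by omega⟩
    by_cases c1 : Fintype.card V ≤ 1
    · have hsub : Subsingleton V := Fintype.card_le_one_iff_subsingleton.1 c1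
      obtain ⟨w⟩ : Nonempty W := Fintype.card_pos_iff.1 (by omega)
      refine ⟨fun _ => w, fun a b _ => Subsingleton.elim a b, fun u v huv => ?_⟩
      exact absurd (Subsingleton.elim u v) huv.ne
    have hpos := dg_pos G hG (by omega)
    by_cases c2 : ∃ x, dg G x = 1
    · obtain ⟨x, hx⟩ := c2
      obtain ⟨p, hp⟩ := Finset.card_eq_one.1 hx
      have hall : ∀ y, G.Adj x y ↔ y = p := fun y => by
        rw [← mem_nb, hp, Finset.mem_singleton]
      obtain ⟨V', i', G', hc', hk, hs, hE⟩ := red_leaf G H hG hH hα hV x p ((hall p).2 rfl)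
        (fun y hy => (hall y).1 hy)
      exact hE (ih (Fintype.card V') (by omega) V' i' G' rfl hc' (by omega) (by omega))
    by_cases c3 : ∃ u v, G.Adj u v ∧ dg G u = 2 ∧ dg G v = 2
    · obtain ⟨u, v, huv, hu, hv⟩ := c3
      obtain ⟨p, hpv, hup, hu'⟩ := second G u v huv hu
      obtain ⟨q, hqu, hvq, hv'⟩ := second G v u huv.symm hv
      by_cases hpq : p = q
      · subst hpq
        obtain ⟨V', i', G', hc', hk, hs, hE⟩ :=
          red_tri G H hG hH hα hV h7 u v p huv hup hvq hu' hv'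
        exact hE (ih (Fintype.card V') (by omega) V' i' G' rfl hc' (by omega) (by omega))
      · obtain ⟨V', i', G', hc', hk, hs, hE⟩ :=
          red_path G H hG hH hα hV u v p q huv hup hvq hpv hqu hpq hu' hv'
        exact hE (ih (Fintype.card V') (by omega) V' i' G' rfl hc' (by omega) (by omega))
    · refine irr G H ⟨hG, fun x => ?_, fun x y hxy hx hy => c3 ⟨x, y, hxy, hx, hy⟩⟩ hH κ hd hN
      have h1 := hpos x
      have h2 : dg G x ≠ 1 := fun h => c2 ⟨x, h⟩
      omega

/-- Two complete parts of size `n - 1`. -/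
def bip (n : ℕ) : SimpleGraph (Fin (2 * n - 2)) where
  Adj i j := (i.1 < n - 1 ↔ ¬ j.1 < n - 1)
  symm := ⟨fun i j h => by tauto⟩
  loopless := ⟨fun i h => by tauto⟩

/-- `r(K₃, G) > 2 n - 2`. -/
theorem lower (n : ℕ) (hn : 2 ≤ n) (G : SimpleGraph (Fin n)) (hG : G.Connected) :
    ¬ (∀ H : SimpleGraph (Fin (2 * n - 2)), ¬ H.CliqueFree 3 ∨
      ∃ f : Fin n → Fin (2 * n - 2), Function.Injective f ∧
        ∀ u v, G.Adj u v → Hᶜ.Adj (f u) (f v)) := by
  intro h
  rcases h (bip n) with h1 | ⟨f, hf, hfe⟩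
  · apply h1
    intro s hs
    rw [SimpleGraph.is3Clique_iff] at hs
    obtain ⟨a, b, c, hab, hac, hbc, _⟩ := hs
    have hab' : (a.1 < n - 1 ↔ ¬ b.1 < n - 1) := hab
    have hac' : (a.1 < n - 1 ↔ ¬ c.1 < n - 1) := hac
    have hbc' : (b.1 < n - 1 ↔ ¬ c.1 < n - 1) := hbc
    tauto
  · have key : ∀ u v, G.Adj u v → ((f u).1 < n - 1 ↔ (f v).1 < n - 1) := by
      intro u v huv
      have h2 := (SimpleGraph.compl_adj _ _ _).1 (hfe u v huv)
      have h3 : ¬ ((f u).1 < n - 1 ↔ ¬ (f v).1 < n - 1) := h2.2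
      tauto
    have key2 : ∀ u v, ((f u).1 < n - 1 ↔ (f v).1 < n - 1) := by
      intro u v
      obtain ⟨w⟩ := hG.preconnected u v
      induction w with
      | nil => exact Iff.rfl
      | cons h _ ih => exact (key _ _ h).trans ih
    obtain ⟨x⟩ := hG.nonempty
    by_cases hx : (f x).1 < n - 1
    · have hall : ∀ u, (f u).1 < n - 1 := fun u => (key2 u x).2 hx
      have hinj : Function.Injective fun u => (⟨(f u).1, hall u⟩ : Fin (n - 1)) := by
        intro u v huv
        have h4 : (f u).1 = (f v).1 := congrArg (fun i : Fin (n - 1) => i.1) huv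
        exact hf (Fin.ext h4)
      have := Fintype.card_le_of_injective _ hinj
      rw [Fintype.card_fin, Fintype.card_fin] at this
      omega
    · have hall : ∀ u, ¬ (f u).1 < n - 1 := fun u h => hx ((key2 u x).1 h)
      have hinj : Function.Injective fun u => (⟨(f u).1 - (n - 1), by
          have := hall u
          have := (f u).2
          omega⟩ : Fin (n - 1)) := by
        intro u v huv
        have h4 : (f u).1 - (n - 1) = (f v).1 - (n - 1) := congrArg Fin.val huv
        have h5 := hall u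
        have h6 := hall v
        exact hf (Fin.ext (by omega))
      have := Fintype.card_le_of_injective _ hinj
      rw [Fintype.card_fin, Fintype.card_fin] at this
      omega

/-- Twice the number of edges. -/
theorem dsum_eq (n : ℕ) (G : SimpleGraph (Fin n)) : dsum G = 2 * G.edgeSet.ncard := by
  have h := G.sum_degrees_eq_twice_card_edges
  have h1 : ∀ x, dg G x = G.degree x := by
    intro x
    rw [dg, ← SimpleGraph.card_neighborFinset_eq_degree]
    congr 1
    ext y
    rw [mem_nb, SimpleGraph.mem_neighborFinset]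
  have h2 : G.edgeSet.ncard = G.edgeFinset.card := by
    rw [SimpleGraph.edgeFinset, Set.ncard_eq_toFinset_card']
  rw [dsum, Finset.sum_congr rfl fun x _ => h1 x, h, h2]

/-- The theorem. -/
theorem six_fifths (n : ℕ) (hn : 4 ≤ n) (G : SimpleGraph (Fin n)) (hG : G.Connected)
    (hE : 5 * G.edgeSet.ncard + 1 ≤ 6 * n) :
    (∀ H : SimpleGraph (Fin (2 * n - 1)), ¬ H.CliqueFree 3 ∨
      ∃ f : Fin n → Fin (2 * n - 1), Function.Injective f ∧
        ∀ u v, G.Adj u v → Hᶜ.Adj (f u) (f v)) ∧
    ¬ (∀ H : SimpleGraph (Fin (2 * n - 2)), ¬ H.CliqueFree 3 ∨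
      ∃ f : Fin n → Fin (2 * n - 2), Function.Injective f ∧
        ∀ u v, G.Adj u v → Hᶜ.Adj (f u) (f v)) := by
  refine ⟨fun H => ?_, lower n (by omega) G hG⟩
  by_cases hH : H.CliqueFree 3
  · right
    have hTF : TF H := by
      intro a b c hab hbc hac
      exact hH {a, b, c} (SimpleGraph.is3Clique_triple_iff.2 ⟨hab, hac, hbc⟩)
    have hd := dsum_eq n G
    obtain ⟨f, hf, hfe⟩ := main H hTF (G.edgeSet.ncard - n)
      (by rw [Fintype.card_fin]; omega) (by rw [Fintype.card_fin]; omega) n (Fin n) inferInstance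
      G (Fintype.card_fin n) hG (by rw [Fintype.card_fin, hd]; omega)
      (by rw [Fintype.card_fin, Fintype.card_fin]; omega)
    refine ⟨f, hf, fun u v huv => ?_⟩
    rw [SimpleGraph.compl_adj]
    exact ⟨fun h => huv.ne (hf h), hfe u v huv⟩
  · exact Or.inl hH

end Pool.Agent.MP_fb5c70_coL
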