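import Pool.Agent.Lib.MP_fb5c70_coL.Defs

/-!
# Reduction 1: a leaf
-/

set_option autoImplicit false

noncomputable section

open Classical

namespace Pool.Agent.MP_fb5c70_coL

variable {V W : Type} [Fintype V] [Fintype W]

/-- The size of the complement of a finite set. -/
theorem card_sub (R : Finset V) :
    Fintype.card {y // y ∉ R} + R.card = Fintype.card V := by
  have h : Fintype.card {y // y ∉ R} = (Finset.univ \ R).card := by
    rw [Fintype.card_subtype]
    congr 1
    ext y
    rw [Finset.mem_filter, Finset.mem_sdiff]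
  rw [h, Finset.card_sdiff_add_card_eq_card (Finset.subset_univ R), Finset.card_univ]

/-- Sums over the complement of a finite set. -/
theorem sum_sub (R : Finset V) (f : V → ℕ) :
    ∑ y : {y // y ∉ R}, f y.1 + ∑ y ∈ R, f y = ∑ y, f y := by
  rw [← Finset.sum_sdiff (Finset.subset_univ R)]
  congr 1
  exact (Finset.sum_subtype (Finset.univ \ R)
    (fun y => by rw [Finset.mem_sdiff, and_iff_right (Finset.mem_univ y)]) f).symm

/-- The degrees of a graph on the complement of `R`, if its edges are edges of `G`. -/
theorem dg_sub_le (R : Finset V) (G : SimpleGraph V) (G' : SimpleGraph {y // y ∉ R})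
    (h : ∀ a b, G'.Adj a b → G.Adj a.1 b.1) (y : {y // y ∉ R}) :
    dg G' y + (R.filter fun z => G.Adj y.1 z).card ≤ dg G y.1 := by
  have h1 : dg G' y = ((nb G' y).map ⟨Subtype.val, Subtype.val_injective⟩).card := by
    rw [Finset.card_map, dg]
  rw [h1, ← Finset.card_union_of_disjoint, dg]
  · apply Finset.card_le_card
    intro z hz
    rw [Finset.mem_union, Finset.mem_map, Finset.mem_filter] at hz
    rcases hz with ⟨w, hw, rfl⟩ | ⟨_, hz⟩
    · exact mem_nb.2 (h _ _ (mem_nb.1 hw))
    · exact mem_nb.2 hz
  · rw [Finset.disjoint_left]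
    intro z hz hz'
    rw [Finset.mem_map] at hz
    obtain ⟨w, _, rfl⟩ := hz
    exact w.2 (Finset.mem_filter.1 hz').1

/-- Degree sum of a subgraph induced on the complement of `R`. -/
theorem dsum_sub_le (R : Finset V) (G : SimpleGraph V) (G' : SimpleGraph {y // y ∉ R})
    (h : ∀ a b, G'.Adj a b → G.Adj a.1 b.1) :
    dsum G' + ∑ z ∈ R, dg G z + ((Finset.univ \ R) ×ˢ R |>.filter fun p => G.Adj p.1 p.2).card
      ≤ dsum G := by
  have h1 : ∑ y : {y // y ∉ R}, (R.filter fun z => G.Adj y.1 z).card
      = ((Finset.univ \ R) ×ˢ R |>.filter fun p => G.Adj p.1 p.2).card := by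
    rw [Finset.card_filter, Finset.sum_product]
    rw [Finset.sum_subtype (Finset.univ \ R)
      (fun y => by rw [Finset.mem_sdiff, and_iff_right (Finset.mem_univ y)])]
    refine Finset.sum_congr rfl fun y _ => ?_
    rw [Finset.card_filter]
  rw [← h1]
  have h2 := sum_sub R (dg G)
  have h3 : dsum G' + ∑ y : {y // y ∉ R}, (R.filter fun z => G.Adj y.1 z).card
      ≤ ∑ y : {y // y ∉ R}, dg G y.1 := by
    rw [dsum, ← Finset.sum_add_distrib]
    exact Finset.sum_le_sum fun y _ => dg_sub_le R G G' h y
  have h4 : dsum G = ∑ y, dg G y := rfl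
  omega

/-- Remove the leaf `x` with neighbour `p`: `G'` is the induced graph on `{y // y ≠ x}`. If `f`
embeds `G'`, the complement of its image has `|W| - (|V| - 1) ≥ |V|` elements, more than the red
degree of `f p`. -/
theorem red_leaf (G : SimpleGraph V) (H : SimpleGraph W) (hG : G.Connected) (hH : TF H)
    (hα : ∀ I, Ind H I → I.card + 1 ≤ Fintype.card V)
    (hN : 2 * Fintype.card V ≤ Fintype.card W + 1) (x p : V) (hxp : G.Adj x p)
    (hx : ∀ y, G.Adj x y → y = p) :
    ∃ (V' : Type) (_ : Fintype V') (G' : SimpleGraph V'), G'.Connected ∧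
      Fintype.card V' + 1 = Fintype.card V ∧ dsum G' + 2 ≤ dsum G ∧ (Emb G' H → Emb G H) := by
  have hpx : p ≠ x := fun h => G.loopless.irrefl x (by rw [h] at hxp; exact hxp)
  have hpR : p ∉ ({x} : Finset V) := fun h => hpx (Finset.mem_singleton.1 h)
  refine ⟨{y // y ∉ ({x} : Finset V)}, inferInstance, G.comap Subtype.val, ?_, ?_, ?_, ?_⟩
  · refine conn_of_map hG (fun y => if h : y ∉ ({x} : Finset V) then ⟨y, h⟩ else ⟨p, hpR⟩) ?_ ?_
    · intro y
      refine ⟨y.1, ?_⟩
      show (if h : y.1 ∉ ({x} : Finset V) then (⟨y.1, h⟩ : {y // y ∉ ({x} : Finset V)})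
        else ⟨p, hpR⟩) = y
      rw [dif_pos y.2]
    · intro a b hab
      by_cases ha : a = x
      · subst ha
        left
        have hb := hx b hab
        subst hb
        show dite _ _ _ = dite _ _ _
        rw [dif_neg (fun h => h (Finset.mem_singleton_self _)), dif_pos hpR]
      · by_cases hb : b = x
        · subst hb
          left
          have ha' := hx a hab.symm
          subst ha'
          show dite _ _ _ = dite _ _ _
          rw [dif_pos hpR, dif_neg (fun h => h (Finset.mem_singleton_self _))]
        · right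
          have ha' : a ∉ ({x} : Finset V) := fun h => ha (Finset.mem_singleton.1 h)
          have hb' : b ∉ ({x} : Finset V) := fun h => hb (Finset.mem_singleton.1 h)
          show (G.comap Subtype.val).Adj (dite _ _ _) (dite _ _ _)
          rw [dif_pos ha', dif_pos hb']
          exact hab
  · have h := card_sub ({x} : Finset V)
    rw [Finset.card_singleton] at h
    exact h
  · have h := dsum_sub_le ({x} : Finset V) G (G.comap Subtype.val) (fun a b hab => hab)
    rw [Finset.sum_singleton] at h
    have h1 : 1 ≤ dg G x := Finset.card_pos.2 ⟨p, mem_nb.2 hxp⟩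
    have h2 : 1 ≤ ((Finset.univ \ ({x} : Finset V)) ×ˢ ({x} : Finset V) |>.filter
        fun p => G.Adj p.1 p.2).card := by
      refine Finset.card_pos.2 ⟨(p, x), ?_⟩
      rw [Finset.mem_filter, Finset.mem_product, Finset.mem_sdiff]
      exact ⟨⟨⟨Finset.mem_univ _, hpR⟩, Finset.mem_singleton_self _⟩, hxp.symm⟩
    omega
  · rintro ⟨f, hf, hfe⟩
    -- an element outside of the image, blue to `f p`
    obtain ⟨w, hw, hwb⟩ : ∃ w, w ∉ Finset.univ.image f ∧ ¬ H.Adj (f ⟨p, hpR⟩) w := by
      by_contra hcon
      push Not at hcon
      have h1 : Finset.univ \ Finset.univ.image f ⊆ nb H (f ⟨p, hpR⟩) := by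
        intro w hw
        exact mem_nb.2 (hcon w (Finset.mem_sdiff.1 hw).2)
      have h2 := Finset.card_le_card h1
      have h3 := hα _ (nb_ind hH (f ⟨p, hpR⟩))
      have h4 : (Finset.univ \ Finset.univ.image f).card + (Finset.univ.image f).card
          = Fintype.card W := by
        rw [Finset.card_sdiff_add_card_eq_card (Finset.subset_univ _), Finset.card_univ]
      have h5 : (Finset.univ.image f).card = Fintype.card {y // y ∉ ({x} : Finset V)} := by
        rw [Finset.card_image_of_injective _ hf, Finset.card_univ]
      have h6 := card_sub ({x} : Finset V)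
      rw [Finset.card_singleton] at h6
      omega
    have hwf : ∀ y, f y ≠ w := fun y h => hw (by
      rw [← h]
      exact Finset.mem_image_of_mem _ (Finset.mem_univ _))
    refine ⟨fun y => if h : y ∉ ({x} : Finset V) then f ⟨y, h⟩ else w, ?_, ?_⟩
    · intro a b hab
      have hab' : (if h : a ∉ ({x} : Finset V) then f ⟨a, h⟩ else w)
        = (if h : b ∉ ({x} : Finset V) then f ⟨b, h⟩ else w) := hab
      by_cases ha : a ∉ ({x} : Finset V)
      · by_cases hb : b ∉ ({x} : Finset V)
        · rw [dif_pos ha, dif_pos hb] at hab'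
          exact congrArg Subtype.val (hf hab')
        · rw [dif_pos ha, dif_neg hb] at hab'
          exact absurd hab' (hwf _)
      · by_cases hb : b ∉ ({x} : Finset V)
        · rw [dif_neg ha, dif_pos hb] at hab'
          exact absurd hab'.symm (hwf _)
        · push Not at ha hb
          rw [Finset.mem_singleton.1 ha, Finset.mem_singleton.1 hb]
    · intro a b hab
      show ¬ H.Adj (if h : a ∉ ({x} : Finset V) then f ⟨a, h⟩ else w)
        (if h : b ∉ ({x} : Finset V) then f ⟨b, h⟩ else w)
      by_cases ha : a ∉ ({x} : Finset V)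
      · by_cases hb : b ∉ ({x} : Finset V)
        · rw [dif_pos ha, dif_pos hb]
          exact hfe _ _ hab
        · rw [dif_pos ha, dif_neg hb]
          push Not at hb
          rw [Finset.mem_singleton] at hb
          subst hb
          have := hx a hab.symm
          subst this
          exact hwb
      · by_cases hb : b ∉ ({x} : Finset V)
        · rw [dif_neg ha, dif_pos hb]
          push Not at ha
          rw [Finset.mem_singleton] at ha
          subst ha
          have := hx b hab
          subst this
          exact fun h => hwb h.symm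
        · push Not at ha hb
          rw [Finset.mem_singleton] at ha hb
          subst ha
          subst hb
          exact absurd hab (G.loopless.irrefl _)

end Pool.Agent.MP_fb5c70_coL
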